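import Pool.Agent.LibK3Q.Q6
import Pool.Agent.LibK3P.P16
import Pool.Agent.LibK3P.PF0

/-!
Ping-pong in the language of `Dyn0`, `Grow`, `PerV` (helper1, over helper33's `Sys0.pingpong`).
-/

set_option autoImplicit false

open Filter Topology
open Pool.Agent.LibGMM Pool.Agent.LibK Pool.Agent.LibKB
open Pool.Agent.LibLB (PSurf RLR)
open Pool.Agent.LibK3 Pool.Agent.LibK3P

namespace Pool.Agent.LibK3Q

variable {L : Type} [Field L] [Algebra ℂ L]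

/-! ### Degrees of rational curves -/

private theorem Q8_psi_one (C : RC L) : C.ψ 1 = 1 := by
  have := C.const 1
  rwa [map_one, map_one] at this

/-- Every rational curve has a degree. -/
theorem exists_degRC (Y : NormalModel L) (C : RC L) : ∃ d : ℤ, DegRC Y C d := by
  classical
  have := Y.fin
  have := Y.ne
  obtain ⟨i₀, hi₀⟩ := Finite.exists_min fun i => C.ν.ord (Y.g i : L)
  have hmem : ∀ j, (Y.g j : L) / Y.g i₀ ∈ C.ν.ring := by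
    intro j
    rw [mem_ring, div_eq_mul_inv, C.ν.ord_mul _ _ (Y.g j).ne_zero (inv_ne_zero (Y.g i₀).ne_zero),
      C.ν.ord_inv]
    have := hi₀ j
    omega
  have h0 : C.ψ ((Y.g i₀ : L) / Y.g i₀) ≠ 0 := by
    rw [div_self (Y.g i₀).ne_zero, Q8_psi_one]
    exact one_ne_zero
  have hne : Nonempty {j : Y.ι // C.ψ ((Y.g j : L) / Y.g i₀) ≠ 0} := ⟨⟨i₀, h0⟩⟩
  have hmin : ∀ v : Plc, ∃ j : {j : Y.ι // C.ψ ((Y.g j : L) / Y.g i₀) ≠ 0},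
      ∀ k : {j : Y.ι // C.ψ ((Y.g j : L) / Y.g i₀) ≠ 0},
      ordP v (C.ψ ((Y.g j.1 : L) / Y.g i₀)) ≤ ordP v (C.ψ ((Y.g k.1 : L) / Y.g i₀)) := fun v =>
    Finite.exists_min fun j : {j : Y.ι // C.ψ ((Y.g j : L) / Y.g i₀) ≠ 0} =>
      ordP v (C.ψ ((Y.g j.1 : L) / Y.g i₀))
  choose J hJ using hmin
  refine ⟨∑ᶠ v, -ordP v (C.ψ ((Y.g (J v).1 : L) / Y.g i₀)), i₀,
    fun v => -ordP v (C.ψ ((Y.g (J v).1 : L) / Y.g i₀)), hmem, ?_, ?_, rfl⟩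
  · intro v j hj
    rw [neg_neg]
    exact hJ v ⟨j, hj⟩
  · intro v
    exact ⟨(J v).1, (J v).2, by rw [neg_neg]⟩

/-- The degree of a rational curve is `form A`. -/
theorem degRC_eq {Y : NormalModel L} {X : Sys0 L} (h1 : X.S.prm = primes Y)
    {e : X.ι ≃ Y.ι} {i₁ : Y.ι} (h3 : ∀ i, X.g i = (Y.g (e i) : L) / Y.g i₁) {C : RC L}
    (hC : C.ν ∈ primes Y) {d : ℤ} (hd : DegRC Y C d) :
    X.S.form X.S.A (X.S.cls C.ν) = d := by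
  obtain ⟨i₀, E, k1, k2, k3, k4⟩ := hd
  have hq : ∀ j : Y.ι, (Y.g j : L) / Y.g i₀ = X.g (e.symm j) / X.g (e.symm i₀) := by
    intro j
    rw [h3, h3, e.apply_symm_apply, e.apply_symm_apply]
    have h0 : (Y.g i₁ : L) ≠ 0 := by
      intro h0
      exact X.g_ne (e.symm i₁) (by rw [h3, h0, div_zero])
    rw [div_div_div_cancel_right₀ h0]
  have key := form_A_eq X (C := C) (by rw [h1]; exact hC) (i₀ := e.symm i₀) (E := E)
    (fun j => by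
      have := k1 (e j)
      rwa [hq, e.symm_apply_apply] at this)
    (fun v j h => by
      have h5 := k2 v (e j)
      rw [hq, e.symm_apply_apply] at h5
      exact h5 h)
    (fun v => by
      obtain ⟨j, h5, h6⟩ := k3 v
      rw [hq] at h5 h6
      exact ⟨e.symm j, h5, h6⟩)
  rw [key, k4]

/-- An automorphism changes the degrees at most by a factor. -/
theorem deg_mv_le {S : PSurf L} {σ : L ≃ₐ[ℂ] L} (h : Perm S σ) : ∃ k : ℕ, ∀ ν ∈ S.prm,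
    S.form S.A (S.cls ν) ≤ k * S.form S.A (S.cls (mv σ ν)) := by
  obtain ⟨k, hk⟩ := LibCUR2.nef_serre S (-S.cl (tr σ (S.rep S.A)))
  have hk := hk k le_rfl
  refine ⟨k, fun ν hν => ?_⟩
  have h1 := hk _ (h.prm ν hν)
  rw [map_add, LinearMap.add_apply, map_nsmul, LinearMap.smul_apply, nsmul_eq_mul, map_neg,
    LinearMap.neg_apply] at h1
  have h2 : S.form (S.cl (tr σ (S.rep S.A))) (S.cls (mv σ ν)) = S.form S.A (S.cls ν) := by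
    have e1 : ∀ μ ∈ S.prm, S.cls μ = S.cl (prd μ) := by
      intro μ hμ
      have h5 := LibCUR2.cl_dlt S hμ
      rw [LibCUR2.dlt_eq_prd] at h5
      exact h5.symm
    rw [e1 _ (h.prm ν hν), ← tr_prd, form_tr h (S.isDiv_rep _) (isDiv_prd ν), S.cl_rep, ← e1 ν hν]
  rw [h2] at h1
  linarith

/-! ### Permutations of the primes and the points -/

private theorem Q8_ess (γ : L ≃ₐ[ℂ] L) {x : Subalgebra ℂ L}
    {ν : DVal L} (h : ν ∈ LibKB.Ess x) : mv γ ν ∈ LibKB.Ess (x.map (γ : L →ₐ[ℂ] L)) := by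
  obtain ⟨h1, h2⟩ := h
  refine ⟨?_, ?_⟩
  · rintro _ ⟨z, hz, rfl⟩
    show 0 ≤ ν.ord (γ.symm (γ z))
    rw [AlgEquiv.symm_apply_apply]
    exact h1 hz
  · intro f hf
    obtain ⟨a, ha, b, hb, hb0, hbo, hab⟩ := h2 (γ.symm f) hf
    refine ⟨γ a, ⟨a, ha, rfl⟩, γ b, ⟨b, hb, rfl⟩, ?_, ?_, ?_⟩
    · exact (map_ne_zero γ).2 hb0
    · show ν.ord (γ.symm (γ b)) = 0
      rw [AlgEquiv.symm_apply_apply]
      exact hbo
    · rw [← map_div₀, ← hab, AlgEquiv.apply_symm_apply]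

theorem perm_of {Y : NormalModel L} {S : PSurf L} (h2 : S.pts = LibLB.closedPts Y)
    {σ : L ≃ₐ[ℂ] L} (hσ : Dyn0 Y σ) : Perm S σ := by
  have hp1 : ∀ x ∈ S.pts, x.map (σ : L →ₐ[ℂ] L) ∈ S.pts := by
    rw [h2]
    exact hσ.pts
  have hp2 : ∀ x ∈ S.pts, x.map (σ.symm : L →ₐ[ℂ] L) ∈ S.pts := by
    rw [h2]
    exact hσ.pts'
  have hprm : ∀ δ : L ≃ₐ[ℂ] L, (∀ x ∈ S.pts, x.map (δ : L →ₐ[ℂ] L) ∈ S.pts) →
      ∀ ν ∈ S.prm, mv δ ν ∈ S.prm := by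
    intro δ hδ ν hν
    obtain ⟨x, hx, hxν⟩ := (S.infPts ν hν).nonempty
    have h1 : ν ∈ LibKB.Ess x := (S.ess x hx ν).2 ⟨hν, hxν⟩
    exact ((S.ess _ (hδ x hx) _).1 (Q8_ess δ h1)).1
  exact ⟨hprm σ hp1, hprm σ.symm hp2, hp1, hp2⟩

private theorem Q8_map_mul (x : Subalgebra ℂ L) (γ δ : L ≃ₐ[ℂ] L) :
    x.map ((γ * δ : L ≃ₐ[ℂ] L) : L →ₐ[ℂ] L) =
      (x.map (δ : L →ₐ[ℂ] L)).map (γ : L →ₐ[ℂ] L) := by
  rw [Subalgebra.map_map]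
  rfl

private theorem Q8_map_one (x : Subalgebra ℂ L) :
    x.map ((1 : L ≃ₐ[ℂ] L) : L →ₐ[ℂ] L) = x := Subalgebra.map_id x

theorem dyn0_one {Y : NormalModel L} (hY : LibL.IsSmoothSurface Y) : Dyn0 Y (1 : L ≃ₐ[ℂ] L) where
  smooth := hY
  pts x hx := by rw [Q8_map_one]; exact hx
  pts' x hx := by
    have h : (1 : L ≃ₐ[ℂ] L).symm = 1 := rfl
    rw [h, Q8_map_one]; exact hx

theorem dyn0_mul {Y : NormalModel L} {γ δ : L ≃ₐ[ℂ] L} (h : Dyn0 Y γ) (h' : Dyn0 Y δ) :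
    Dyn0 Y (γ * δ) where
  smooth := h.smooth
  pts x hx := by rw [Q8_map_mul]; exact h.pts _ (h'.pts _ hx)
  pts' x hx := by
    have e : (γ * δ).symm = δ.symm * γ.symm := rfl
    rw [e, Q8_map_mul]
    exact h'.pts' _ (h.pts' _ hx)

theorem dyn0_inv {Y : NormalModel L} {γ : L ≃ₐ[ℂ] L} (h : Dyn0 Y γ) : Dyn0 Y γ⁻¹ where
  smooth := h.smooth
  pts x hx := h.pts' x hx
  pts' x hx := h.pts x hx

theorem dyn0_pow {Y : NormalModel L} {γ : L ≃ₐ[ℂ] L} (h : Dyn0 Y γ) (n : ℕ) : Dyn0 Y (γ ^ n) := by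
  induction n with
  | zero => rw [pow_zero]; exact dyn0_one h.smooth
  | succ n ih => rw [pow_succ]; exact dyn0_mul ih h

theorem mv_mem_primes {Y : NormalModel L} {γ : L ≃ₐ[ℂ] L} (h : Dyn0 Y γ) {ν : DVal L}
    (hν : ν ∈ primes Y) : mv γ ν ∈ primes Y := by
  obtain ⟨X, h1, h2, rfl, -⟩ := exists_sys0 h.smooth h.pts h.pts'
  rw [← h1] at hν ⊢
  exact X.perm.prm ν hν

theorem rc_mv_mul (γ δ : L ≃ₐ[ℂ] L) (C : RC L) : C.mv (γ * δ) = (C.mv δ).mv γ := rfl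

/-! ### Growth -/

/-- A conjugate has growing degrees too. -/
theorem grow_conj {Y : NormalModel L} {g σ : L ≃ₐ[ℂ] L} (hg : Dyn0 Y g) (hσ : Dyn0 Y σ) {C₀ : RC L}
    (hC₀ : C₀.ν ∈ primes Y) (hG : Grow Y g C₀) : Grow Y (σ * g * σ⁻¹) (C₀.mv σ) := by
  obtain ⟨X, h1, h2, rfl, e, i₁, h3⟩ := exists_sys0 hg.smooth hg.pts hg.pts'
  have hP := perm_of h2 hσ
  obtain ⟨k, hk⟩ := deg_mv_le hP
  obtain ⟨μ, c, hμ, hc, hgr⟩ := hG
  refine ⟨μ, c / (k + 1), hμ, by positivity, fun m => ?_⟩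
  have e1 : (C₀.mv σ).mv ((σ * X.γ * σ⁻¹) ^ m) = (C₀.mv (X.γ ^ m)).mv σ := by
    rw [← rc_mv_mul, ← rc_mv_mul]
    congr 1
    rw [conj_pow]
    group
  obtain ⟨d, hd, hdc⟩ := hgr m
  obtain ⟨d', hd'⟩ := exists_degRC Y ((C₀.mv (X.γ ^ m)).mv σ)
  rw [e1]
  refine ⟨d', hd', ?_⟩
  have hm0 : (C₀.mv (X.γ ^ m)).ν ∈ X.S.prm := by
    have := X.mv_mem (ν := C₀.ν) (by rw [h1]; exact hC₀) (m : ℤ)
    rw [zpow_natCast] at this
    exact this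
  have hm1 : ((C₀.mv (X.γ ^ m)).mv σ).ν ∈ X.S.prm := hP.prm _ hm0
  have f1 := degRC_eq h1 h3 (by rw [← h1]; exact hm0) hd
  have f2 := degRC_eq h1 h3 (by rw [← h1]; exact hm1) hd'
  have f3 := hk _ hm0
  rw [f1] at f3
  have f4 : d ≤ k * d' := by
    rw [← f2]
    exact f3
  have f5 : 1 ≤ d' := by
    rw [← f2]
    exact LibCUR2.A_pos X.S hm1
  have f4' : (d : ℝ) ≤ k * d' := by exact_mod_cast f4
  have f5' : (1 : ℝ) ≤ d' := by exact_mod_cast f5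
  rw [div_mul_eq_mul_div, div_le_iff₀ (by positivity)]
  linarith

theorem ent_of_grow {Y : NormalModel L} {X : Sys0 L} (h1 : X.S.prm = primes Y)
    {e : X.ι ≃ Y.ι} {i₁ : Y.ι} (h3 : ∀ i, X.g i = (Y.g (e i) : L) / Y.g i₁) {C : RC L}
    (hC : C.ν ∈ primes Y) (hG : Grow Y X.γ C) : X.Ent C := by
  have hC' : C.ν ∈ X.S.prm := by rw [h1]; exact hC
  refine ⟨hC', ?_⟩
  obtain ⟨μ, c, hμ, hc, hgr⟩ := hG
  refine ⟨μ, c, hμ, hc, fun m => ?_⟩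
  obtain ⟨d, hd, hdc⟩ := hgr m
  have hm0 : (C.mv (X.γ ^ m)).ν ∈ X.S.prm := by
    have := X.mv_mem hC' (m : ℤ)
    rw [zpow_natCast] at this
    exact this
  have f1 := degRC_eq h1 h3 (by rw [← h1]; exact hm0) hd
  have hcv : X.cv C m = C.mv (X.γ ^ m) := by
    unfold Sys0.cv
    rw [zpow_natCast]
  rw [hcv, f1]
  exact hdc

theorem grow_of_ent {Y : NormalModel L} {X : Sys0 L} (h1 : X.S.prm = primes Y)
    {e : X.ι ≃ Y.ι} {i₁ : Y.ι} (h3 : ∀ i, X.g i = (Y.g (e i) : L) / Y.g i₁) {C : RC L}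
    (hE : X.Ent C) : Grow Y X.γ C := by
  obtain ⟨μ, c, hμ, hc, hgr⟩ := hE.grow
  refine ⟨μ, c, hμ, hc, fun m => ?_⟩
  obtain ⟨d, hd⟩ := exists_degRC Y (C.mv (X.γ ^ m))
  refine ⟨d, hd, ?_⟩
  have hm0 : (C.mv (X.γ ^ m)).ν ∈ X.S.prm := by
    have := X.mv_mem hE.mem (m : ℤ)
    rw [zpow_natCast] at this
    exact this
  have f1 := degRC_eq h1 h3 (by rw [← h1]; exact hm0) hd
  have hcv : X.cv C m = C.mv (X.γ ^ m) := by
    unfold Sys0.cv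
    rw [zpow_natCast]
  have h4 := hgr m
  rw [hcv, f1] at h4
  exact h4

/-- An automorphism of positive entropy has finitely many periodic primes. -/
theorem perV_finite {Y : NormalModel L} {g : L ≃ₐ[ℂ] L} (hg : Dyn0 Y g) {C₀ : RC L}
    (hC₀ : C₀.ν ∈ primes Y) (hG : Grow Y g C₀) : {ν | ν ∈ primes Y ∧ PerV g ν}.Finite := by
  obtain ⟨X, h1, h2, rfl, e, i₁, h3⟩ := exists_sys0 hg.smooth hg.pts hg.pts'
  have h4 := X.finite_per (ent_of_grow h1 h3 hC₀ hG).posEnt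
  rw [h1] at h4
  exact h4

theorem not_perV {Y : NormalModel L} {g : L ≃ₐ[ℂ] L} (hg : Dyn0 Y g) {C₀ : RC L}
    (hC₀ : C₀.ν ∈ primes Y) (hG : Grow Y g C₀) : ¬ PerV g C₀.ν := by
  obtain ⟨X, h1, h2, rfl, e, i₁, h3⟩ := exists_sys0 hg.smooth hg.pts hg.pts'
  exact (ent_of_grow h1 h3 hC₀ hG).not_per

/-- **Ping-pong.** Two automorphisms of positive entropy with different periodic curves: some `h^n g^n`
has positive entropy and its periodic curves are periodic for both. -/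
theorem pingpong {Y : NormalModel L} {g h : L ≃ₐ[ℂ] L} (hg : Dyn0 Y g) (hh : Dyn0 Y h)
    {C₀ C₁ : RC L} (hC₀ : C₀.ν ∈ primes Y) (hG : Grow Y g C₀) (hC₁ : C₁.ν ∈ primes Y)
    (hH : Grow Y h C₁) (hne : ∃ ν ∈ primes Y, ¬ (PerV g ν ↔ PerV h ν)) :
    ∃ n : ℕ, 0 < n ∧ Dyn0 Y (h ^ n * g ^ n) ∧ Grow Y (h ^ n * g ^ n) C₀ ∧
      ∀ ν ∈ primes Y, PerV (h ^ n * g ^ n) ν → PerV g ν ∧ PerV h ν := by
  obtain ⟨X, h1, h2, rfl, e, i₁, h3⟩ := exists_sys0 hg.smooth hg.pts hg.pts'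
  have hE : X.Ent C₀ := ent_of_grow h1 h3 hC₀ hG
  have hE' : (X.wg h (perm_of h2 hh)).Ent C₁ :=
    ent_of_grow (X := X.wg h (perm_of h2 hh)) h1 h3 hC₁ hH
  obtain ⟨ν₀, hν₀, hd⟩ := hne
  obtain ⟨n, hn, hY, hEn, hper⟩ := X.pingpong (perm_of h2 hh) hE.posEnt hE'.posEnt
    (ν₀ := ν₀) (by rw [h1]; exact hν₀) hd hE.mem hE.not_per
  refine ⟨n, hn, dyn0_mul (dyn0_pow hh n) (dyn0_pow hg n), ?_, fun ν hν h4 => ?_⟩
  · exact grow_of_ent (X := X.wg (h ^ n * X.γ ^ n) hY) h1 h3 hEn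
  · exact hper ν (by rw [h1]; exact hν) h4

/-! ### The final form -/

/-- Periodicity for a conjugate. -/
theorem perV_conj {g σ : L ≃ₐ[ℂ] L} {ν : DVal L} : PerV (σ * g * σ⁻¹) ν ↔ PerV g (mv σ⁻¹ ν) := by
  have key : ∀ n : ℕ, (mv ((σ * g * σ⁻¹) ^ n) ν = ν ↔ mv (g ^ n) (mv σ⁻¹ ν) = mv σ⁻¹ ν) := by
    intro n
    rw [conj_pow, mv_mul, mv_mul]
    constructor
    · intro h
      conv_rhs => rw [← h]
      rw [← mv_mul σ⁻¹ σ, inv_mul_cancel, mv_one]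
    · intro h
      rw [h, ← mv_mul, mul_inv_cancel, mv_one]
  constructor
  · rintro ⟨n, hn, h⟩
    exact ⟨n, hn, (key n).1 h⟩
  · rintro ⟨n, hn, h⟩
    exact ⟨n, hn, (key n).2 h⟩

/-- **From periodic curves in `B` to none**: if an automorphism `σ⁻¹` moves every periodic curve of `B`
to a curve which is not periodic then some product of conjugates of powers of `g` has positive entropy
and no periodic curve in `B`. -/
theorem exists_no_per {Y : NormalModel L} {g σ : L ≃ₐ[ℂ] L} (hg : Dyn0 Y g) (hσ : Dyn0 Y σ)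
    {C₀ : RC L} (hC₀ : C₀.ν ∈ primes Y) (hG : Grow Y g C₀) {B : Set (DVal L)} (hB : B ⊆ primes Y)
    (h : ∀ b ∈ B, PerV g b → ¬ PerV g (mv σ⁻¹ b)) :
    ∃ n : ℕ, 0 < n ∧ ∃ γ : L ≃ₐ[ℂ] L, (γ = g ∨ γ = (σ * g * σ⁻¹) ^ n * g ^ n) ∧ Dyn0 Y γ ∧
      Grow Y γ C₀ ∧ ∀ b ∈ B, ¬ PerV γ b := by
  by_cases hB0 : ∃ b ∈ B, PerV g b
  · obtain ⟨b₀, hb₀, hp⟩ := hB0
    have hc : Dyn0 Y (σ * g * σ⁻¹) := dyn0_mul (dyn0_mul hσ hg) (dyn0_inv hσ)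
    obtain ⟨n, hn, hD, hGr, hper⟩ := pingpong hg hc hC₀ hG (C₁ := C₀.mv σ)
      (mv_mem_primes hσ hC₀) (grow_conj hg hσ hC₀ hG)
      ⟨b₀, hB hb₀, fun h1 => h b₀ hb₀ hp (perV_conj.1 (h1.1 hp))⟩
    refine ⟨n, hn, _, Or.inr rfl, hD, hGr, fun b hb h1 => ?_⟩
    obtain ⟨h2, h3⟩ := hper b (hB hb) h1
    exact h b hb h2 (perV_conj.1 h3)
  · push Not at hB0
    exact ⟨1, one_pos, g, Or.inl rfl, hg, hG, hB0⟩

end Pool.Agent.LibK3Q
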