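import Mathlib

/-!
Ping-pong for two automorphisms with positive functionals (abstract form, helper33).

`ι` is the set of prime divisors, `a` the degree, `g, g'` the automorphisms, `tp, tm` the limits of the
normalised degrees under `g ^ m` and `g ^ (-m)`, `P` the set of the periodic primes of `g`.
-/

set_option autoImplicit false

namespace Pool.Agent.LibK3Q

private theorem Q1_pow {ι : Type} (g : Equiv.Perm ι) {P : Set ι} {N : ℕ}
    (hP : ∀ x ∈ P, (g ^ N) x = x) (j : ℕ) : ∀ x ∈ P, (g ^ (N * j)) x = x := by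
  intro x hx
  rw [pow_mul]
  induction j with
  | zero => rfl
  | succ j ih => rw [pow_succ, Equiv.Perm.mul_apply, hP x hx, ih]

private theorem Q1_up {ι : Type} (g : Equiv.Perm ι) {t : ι → ℝ} {r : ℝ}
    (s : ∀ x, t (g x) = r * t x) (n : ℕ) (x : ι) : t ((g ^ n) x) = r ^ n * t x := by
  induction n with
  | zero => simp
  | succ n ih => rw [pow_succ', Equiv.Perm.mul_apply, s, ih, pow_succ']; ring

private theorem Q1_dn {ι : Type} (g : Equiv.Perm ι) {t : ι → ℝ} {r : ℝ}
    (s : ∀ x, t x = r * t (g x)) (n : ℕ) (x : ι) : t x = r ^ n * t ((g ^ n) x) := by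
  induction n with
  | zero => simp
  | succ n ih => rw [ih, s ((g ^ n) x), ← Equiv.Perm.mul_apply, ← pow_succ', pow_succ]; ring

/-- Two automorphisms in ping-pong position: a product of high powers expands the degree of `c`, and
its periodic points are periodic for both. -/
theorem pingpong_abs {ι : Type} (g g' : Equiv.Perm ι) (P P' : Set ι) (a tp tm tp' tm' : ι → ℝ)
    {r r' C δ : ℝ} (hr0 : 0 < r) (hr1 : r < 1) (hr0' : 0 < r') (hr1' : r' < 1) (hC : 0 < C)
    (hδ : 0 < δ) (ha : ∀ x, 1 ≤ a x) (h1 : ∀ x, tp x ≤ C * a x) (h2 : ∀ x, tm x ≤ C * a x)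
    (h1' : ∀ x, tp' x ≤ C * a x) (h2' : ∀ x, tm' x ≤ C * a x) (s1 : ∀ x, tp (g x) = r * tp x)
    (s2 : ∀ x, tm x = r * tm (g x)) (s1' : ∀ x, tp' (g' x) = r' * tp' x)
    (s2' : ∀ x, tm' x = r' * tm' (g' x)) (l1 : ∀ x, ¬ (x ∈ P ∧ x ∈ P') → δ * a x ≤ tm x + tp' x)
    (l2 : ∀ x, ¬ (x ∈ P ∧ x ∈ P') → δ * a x ≤ tp x + tm' x) {N : ℕ} (hN : 0 < N)
    (hP : ∀ x ∈ P, (g ^ N) x = x) (hP' : ∀ x ∈ P', (g' ^ N) x = x) {c : ι} (hc : 0 < tm c) :
    ∃ n : ℕ, 0 < n ∧ (∀ x, (∃ k : ℕ, 0 < k ∧ ((g' ^ n * g ^ n) ^ k) x = x) → x ∈ P ∧ x ∈ P') ∧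
      ∀ m : ℕ, 2 ^ m * a c ≤ a (((g' ^ n * g ^ n) ^ m) c) := by
  have hapos : ∀ x, 0 < a x := fun x => zero_lt_one.trans_le (ha x)
  obtain ⟨e, he0, hec, heδ⟩ : ∃ e : ℝ, 0 < e ∧ e * a c ≤ tm c ∧ 2 * e ≤ δ := by
    refine ⟨min (tm c / a c) (δ / 2), lt_min (div_pos hc (hapos c)) (half_pos hδ), ?_, ?_⟩
    · calc min (tm c / a c) (δ / 2) * a c ≤ tm c / a c * a c :=
            mul_le_mul_of_nonneg_right (min_le_left _ _) (hapos c).le
        _ = tm c := div_mul_cancel₀ _ (hapos c).ne'
    · linarith [min_le_right (tm c / a c) (δ / 2)]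
  obtain ⟨ε, hε0, hε⟩ : ∃ ε : ℝ, 0 < ε ∧ 4 * C ^ 2 * ε ^ 2 = δ * e := by
    refine ⟨Real.sqrt (δ * e) / (2 * C), by positivity, ?_⟩
    rw [div_pow, Real.sq_sqrt (by positivity)]
    field_simp
    norm_num
  obtain ⟨j, hj1, hj2, hj0⟩ : ∃ j : ℕ, r ^ j ≤ ε ∧ r' ^ j ≤ ε ∧ 0 < j := by
    have h3 := (tendsto_pow_atTop_nhds_zero_of_lt_one hr0.le hr1).eventually (gt_mem_nhds hε0)
    have h4 := (tendsto_pow_atTop_nhds_zero_of_lt_one hr0'.le hr1').eventually (gt_mem_nhds hε0)
    obtain ⟨j, h5, h6, h7⟩ := (h3.and (h4.and (Filter.eventually_gt_atTop 0))).exists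
    exact ⟨j, h5.le, h6.le, h7⟩
  obtain ⟨n, hn⟩ : ∃ n : ℕ, n = N * j := ⟨_, rfl⟩
  have hn0 : 0 < n := by rw [hn]; exact Nat.mul_pos hN hj0
  have hjn : j ≤ n := by rw [hn]; exact Nat.le_mul_of_pos_left j hN
  obtain ⟨u, hu⟩ : ∃ u : ℝ, u = r ^ n := ⟨_, rfl⟩
  obtain ⟨v, hv⟩ : ∃ v : ℝ, v = r' ^ n := ⟨_, rfl⟩
  have hu0 : 0 < u := by rw [hu]; positivity
  have hv0 : 0 < v := by rw [hv]; positivity
  have hu1 : u ≤ ε := by rw [hu]; exact (pow_le_pow_of_le_one hr0.le hr1.le hjn).trans hj1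
  have hv1 : v ≤ ε := by rw [hv]; exact (pow_le_pow_of_le_one hr0'.le hr1'.le hjn).trans hj2
  have hu2 : u < 1 := by rw [hu]; exact pow_lt_one₀ hr0.le hr1 hn0.ne'
  have hv2 : v < 1 := by rw [hv]; exact pow_lt_one₀ hr0'.le hr1' hn0.ne'
  have fP : ∀ x ∈ P, (g ^ n) x = x := by rw [hn]; exact Q1_pow g hP j
  have fP' : ∀ x ∈ P', (g' ^ n) x = x := by rw [hn]; exact Q1_pow g' hP' j
  have e1 : ∀ x, tp ((g ^ n) x) = u * tp x := fun x => by rw [hu]; exact Q1_up g s1 n x
  have e2 : ∀ x, tm x = u * tm ((g ^ n) x) := fun x => by rw [hu]; exact Q1_dn g s2 n x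
  have e1' : ∀ x, tp' ((g' ^ n) x) = v * tp' x := fun x => by rw [hv]; exact Q1_up g' s1' n x
  have e2' : ∀ x, tm' x = v * tm' ((g' ^ n) x) := fun x => by rw [hv]; exact Q1_dn g' s2' n x
  refine ⟨n, hn0, ?_, ?_⟩
  · rintro x ⟨k, hk, hx⟩
    by_contra hnot
    set γ : Equiv.Perm ι := g' ^ n * g ^ n with hγ
    set y : ℕ → ι := fun i => (γ ^ i) x with hy
    have hyk : y k = y 0 := by
      simp only [hy, pow_zero]
      exact hx
    have hys : ∀ i, y (i + 1) = (g' ^ n) ((g ^ n) (y i)) := by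
      intro i
      simp only [hy]
      rw [pow_succ', Equiv.Perm.mul_apply, hγ, Equiv.Perm.mul_apply]
    have hA : ∀ i, ¬ (y i ∈ P ∧ y i ∈ P') := by
      intro i
      induction i with
      | zero => simpa [hy] using hnot
      | succ i ih =>
        rintro ⟨h3, h4⟩
        have h5 : (g' ^ n) (y (i + 1)) = y (i + 1) := fP' _ h4
        have h6 : (g ^ n) (y i) = y (i + 1) := by
          apply (g' ^ n).injective
          rw [← hys, h5]
        have h7 : (g ^ n) (y (i + 1)) = y (i + 1) := fP _ h3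
        have h8 : y i = y (i + 1) := by
          apply (g ^ n).injective
          rw [h6, h7]
        exact ih (by rw [h8]; exact ⟨h3, h4⟩)
    have hB : ∀ i, ¬ ((g ^ n) (y i) ∈ P ∧ (g ^ n) (y i) ∈ P') := by
      rintro i ⟨h3, h4⟩
      have h5 : (g ^ n) (y i) = y i := by
        apply (g ^ n).injective
        exact fP _ h3
      rw [h5] at h3 h4
      exact hA i ⟨h3, h4⟩
    have hcyc : ∀ t : ι → ℝ, ∑ i ∈ Finset.range k, t (y (i + 1)) = ∑ i ∈ Finset.range k, t (y i) := by
      intro t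
      have h3 := Finset.sum_range_succ (fun i => t (y i)) k
      have h4 := Finset.sum_range_succ' (fun i => t (y i)) k
      rw [h3, hyk] at h4
      linarith
    have k1 : δ * ∑ i ∈ Finset.range k, a (y i) ≤
        C * (u + v) * ∑ i ∈ Finset.range k, a ((g ^ n) (y i)) := by
      calc δ * ∑ i ∈ Finset.range k, a (y i) = ∑ i ∈ Finset.range k, δ * a (y i) := by
            rw [Finset.mul_sum]
        _ ≤ ∑ i ∈ Finset.range k, (tm (y i) + tp' (y i)) :=
            Finset.sum_le_sum fun i _ => l1 _ (hA i)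
        _ = ∑ i ∈ Finset.range k, (tm (y i) + tp' (y (i + 1))) := by
            rw [Finset.sum_add_distrib, Finset.sum_add_distrib, hcyc]
        _ ≤ ∑ i ∈ Finset.range k, C * (u + v) * a ((g ^ n) (y i)) := by
            refine Finset.sum_le_sum fun i _ => ?_
            rw [e2 (y i), hys i, e1']
            have h3 := mul_le_mul_of_nonneg_left (h2 ((g ^ n) (y i))) hu0.le
            have h4 := mul_le_mul_of_nonneg_left (h1' ((g ^ n) (y i))) hv0.le
            linarith
        _ = C * (u + v) * ∑ i ∈ Finset.range k, a ((g ^ n) (y i)) := by rw [Finset.mul_sum]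
    have k2 : δ * ∑ i ∈ Finset.range k, a ((g ^ n) (y i)) ≤
        C * (u + v) * ∑ i ∈ Finset.range k, a (y i) := by
      calc δ * ∑ i ∈ Finset.range k, a ((g ^ n) (y i))
          = ∑ i ∈ Finset.range k, δ * a ((g ^ n) (y i)) := by rw [Finset.mul_sum]
        _ ≤ ∑ i ∈ Finset.range k, (tp ((g ^ n) (y i)) + tm' ((g ^ n) (y i))) :=
            Finset.sum_le_sum fun i _ => l2 _ (hB i)
        _ ≤ ∑ i ∈ Finset.range k, (C * u * a (y i) + C * v * a (y (i + 1))) := by
            refine Finset.sum_le_sum fun i _ => ?_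
            rw [e1, e2' ((g ^ n) (y i)), ← hys i]
            have h3 := mul_le_mul_of_nonneg_left (h1 (y i)) hu0.le
            have h4 := mul_le_mul_of_nonneg_left (h2' (y (i + 1))) hv0.le
            linarith
        _ = C * (u + v) * ∑ i ∈ Finset.range k, a (y i) := by
            rw [Finset.sum_add_distrib, ← Finset.mul_sum, ← Finset.mul_sum, hcyc]
            ring
    have hS : 0 < ∑ i ∈ Finset.range k, a (y i) :=
      Finset.sum_pos (fun i _ => hapos _) (Finset.nonempty_range_iff.2 hk.ne')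
    have hS' : 0 < ∑ i ∈ Finset.range k, a ((g ^ n) (y i)) :=
      Finset.sum_pos (fun i _ => hapos _) (Finset.nonempty_range_iff.2 hk.ne')
    have k3 : C * (u + v) < δ := by
      have h3 : C * (u + v) ≤ 2 * C * ε := by nlinarith
      have h4 : (2 * C * ε) ^ 2 < δ ^ 2 := by
        have : (2 * C * ε) ^ 2 = δ * e := by rw [← hε]; ring
        rw [this]
        nlinarith
      have h5 : 2 * C * ε < δ := lt_of_pow_lt_pow_left₀ 2 hδ.le h4
      linarith
    have k4 : C * (u + v) * ∑ i ∈ Finset.range k, a ((g ^ n) (y i)) <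
        δ * ∑ i ∈ Finset.range k, a ((g ^ n) (y i)) := mul_lt_mul_of_pos_right k3 hS'
    have k5 : C * (u + v) * ∑ i ∈ Finset.range k, a (y i) < δ * ∑ i ∈ Finset.range k, a (y i) :=
      mul_lt_mul_of_pos_right k3 hS
    linarith
  · -- growth
    have step : ∀ x, e * a x ≤ tm x →
        2 * a x ≤ a ((g' ^ n) ((g ^ n) x)) ∧
        e * a ((g' ^ n) ((g ^ n) x)) ≤ tm ((g' ^ n) ((g ^ n) x)) := by
      intro x hx
      have hax := hapos x
      obtain ⟨z, hz⟩ : ∃ z, z = (g ^ n) x := ⟨_, rfl⟩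
      obtain ⟨w, hw⟩ : ∃ w, w = (g' ^ n) z := ⟨_, rfl⟩
      rw [← hz, ← hw]
      have haz := hapos z
      have haw := hapos w
      have htx : 0 < tm x := (mul_pos he0 hax).trans_le hx
      have q1 : tm x = u * tm z := by rw [hz]; exact e2 x
      have q2 : tp z = u * tp x := by rw [hz]; exact e1 x
      have q3 : tm' z = v * tm' w := by rw [hw]; exact e2' z
      have q4 : tp' w = v * tp' z := by rw [hw]; exact e1' z
      -- size of z
      have p1 : e * a x ≤ u * (C * a z) := by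
        rw [q1] at hx
        exact hx.trans (mul_le_mul_of_nonneg_left (h2 z) hu0.le)
      have nz : ¬ (z ∈ P ∧ z ∈ P') := by
        rintro ⟨h3, -⟩
        have h4 : x = z := by
          apply (g ^ n).injective
          rw [← hz]
          exact (fP z h3).symm
        rw [← h4] at q1
        nlinarith
      have p2 : δ * a z ≤ u * tp x + tm' z := by
        have := l2 z nz
        rwa [q2] at this
      have p3 : u * tp x ≤ u * (C * a x) := mul_le_mul_of_nonneg_left (h1 x) hu0.le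
      have p4 : u * (C * a x) * (4 * e) ≤ δ * e * a z := by
        have h3 : u * C * (4 * (e * a x)) ≤ u * C * (4 * (u * (C * a z))) := by
          refine mul_le_mul_of_nonneg_left ?_ (by positivity)
          linarith
        have h4 : u ^ 2 ≤ ε ^ 2 := pow_le_pow_left₀ hu0.le hu1 2
        have h5 : 4 * C ^ 2 * u ^ 2 * a z ≤ 4 * C ^ 2 * ε ^ 2 * a z := by
          refine mul_le_mul_of_nonneg_right ?_ haz.le
          exact mul_le_mul_of_nonneg_left h4 (by positivity)
        rw [hε] at h5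
        calc u * (C * a x) * (4 * e) = u * C * (4 * (e * a x)) := by ring
          _ ≤ u * C * (4 * (u * (C * a z))) := h3
          _ = 4 * C ^ 2 * u ^ 2 * a z := by ring
          _ ≤ δ * e * a z := h5
      have p5 : u * (C * a x) ≤ δ / 4 * a z := by
        have h3 : u * (C * a x) * 4 * e ≤ δ * a z * e := by linarith
        have h4 := le_of_mul_le_mul_right h3 he0
        linarith
      have p6 : δ / 2 * a z ≤ tm' z := by nlinarith
      -- size of w
      have p7 : δ / 2 * a z ≤ v * (C * a w) := by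
        rw [q3] at p6
        exact p6.trans (mul_le_mul_of_nonneg_left (h2' w) hv0.le)
      have nw : ¬ (w ∈ P ∧ w ∈ P') := by
        rintro ⟨-, h3⟩
        have h4 : z = w := by
          apply (g' ^ n).injective
          rw [← hw]
          exact (fP' w h3).symm
        rw [← h4] at q3
        have h5 : 0 < tm' z := lt_of_lt_of_le (by positivity) p6
        nlinarith
      have p8 : δ * a w ≤ tm w + v * tp' z := by
        have := l1 w nw
        rwa [q4] at this
      have p9 : v * tp' z ≤ v * (C * a z) := mul_le_mul_of_nonneg_left (h1' z) hv0.le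
      have p10 : v * (C * a z) * (2 * δ) ≤ δ * e * a w := by
        have h3 : v * C * (4 * (δ / 2 * a z)) ≤ v * C * (4 * (v * (C * a w))) := by
          refine mul_le_mul_of_nonneg_left ?_ (by positivity)
          linarith
        have h4 : v ^ 2 ≤ ε ^ 2 := pow_le_pow_left₀ hv0.le hv1 2
        have h5 : 4 * C ^ 2 * v ^ 2 * a w ≤ 4 * C ^ 2 * ε ^ 2 * a w := by
          refine mul_le_mul_of_nonneg_right ?_ haw.le
          exact mul_le_mul_of_nonneg_left h4 (by positivity)
        rw [hε] at h5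
        calc v * (C * a z) * (2 * δ) = v * C * (4 * (δ / 2 * a z)) := by ring
          _ ≤ v * C * (4 * (v * (C * a w))) := h3
          _ = 4 * C ^ 2 * v ^ 2 * a w := by ring
          _ ≤ δ * e * a w := h5
      have p11 : v * (C * a z) ≤ δ / 4 * a w := by
        have h3 : v * (C * a z) * 2 * δ ≤ e * a w * δ := by linarith
        have h4 := le_of_mul_le_mul_right h3 hδ
        nlinarith
      have p12 : δ / 2 * a w ≤ tm w := by nlinarith
      refine ⟨?_, ?_⟩
      · -- 2 a x ≤ a w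
        have h3 : e * a x * δ ≤ 2 * (u * v) * C ^ 2 * a w := by
          have h4 : e * a x * δ ≤ u * (C * a z) * δ := mul_le_mul_of_nonneg_right p1 hδ.le
          have h5 : u * C * (δ / 2 * a z) ≤ u * C * (v * (C * a w)) :=
            mul_le_mul_of_nonneg_left p7 (by positivity)
          nlinarith
        have h4 : u * v ≤ ε ^ 2 := by nlinarith
        have h5 : 4 * C ^ 2 * (u * v) * a w ≤ 4 * C ^ 2 * ε ^ 2 * a w := by
          refine mul_le_mul_of_nonneg_right ?_ haw.le
          exact mul_le_mul_of_nonneg_left h4 (by positivity)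
        rw [hε] at h5
        have h6 : 2 * a x * (δ * e) ≤ a w * (δ * e) := by nlinarith
        exact le_of_mul_le_mul_right h6 (mul_pos hδ he0)
      · nlinarith
    have main : ∀ m : ℕ, 2 ^ m * a c ≤ a (((g' ^ n * g ^ n) ^ m) c) ∧
        e * a (((g' ^ n * g ^ n) ^ m) c) ≤ tm (((g' ^ n * g ^ n) ^ m) c) := by
      intro m
      induction m with
      | zero => simpa using hec
      | succ m ih =>
        obtain ⟨h3, h4⟩ := step _ ih.2
        rw [pow_succ' (g' ^ n * g ^ n) m, Equiv.Perm.mul_apply, Equiv.Perm.mul_apply]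
        refine ⟨?_, h4⟩
        refine le_trans ?_ h3
        rw [pow_succ]
        linarith [ih.1]
    exact fun m => (main m).1

end Pool.Agent.LibK3Q
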