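import Pool.Agent.LibK3P.P10
import Pool.Agent.LibK3P.P16

/-!
The limits of the normalised degrees under the powers of an automorphism of positive entropy, with
uniform bounds (helper33).
-/

set_option autoImplicit false

open Pool.Agent.LibGMM Pool.Agent.LibK Pool.Agent.LibKB
open Pool.Agent.LibLB (PSurf RLR)
open Pool.Agent.LibCov80 (Over)
open Pool.Agent.LibK3 Pool.Agent.LibK3P
open Filter

namespace Pool.Agent.LibK3Q

private theorem Q2_lim {Λ b : ℕ → ℝ} {l c K : ℝ} (hl : 1 < l) (hc : 0 < c) (hK : 0 ≤ K)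
    (h1 : ∀ m, c * l ^ m ≤ Λ m)
    (h3 : ∀ m, |b (m + 1) / Λ (m + 1) - b m / Λ m| ≤ K / Real.sqrt (Λ m * Λ (m + 1))) :
    ∃ θ : ℝ, Tendsto (fun m => b m / Λ m) atTop (nhds θ) ∧
      ∀ m, |b m / Λ m - θ| ≤ K / c * (l⁻¹) ^ m / (1 - l⁻¹) := by
  have hl0 : 0 < l := by linarith
  have hq1 : l⁻¹ < 1 := inv_lt_one_of_one_lt₀ hl
  have hd : ∀ n, dist (b n / Λ n) (b (n + 1) / Λ (n + 1)) ≤ K / c * (l⁻¹) ^ n := by
    intro n
    rw [dist_comm, Real.dist_eq]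
    refine (h3 n).trans ?_
    have hcl : 0 < c * l ^ n := by positivity
    have h4 : c * l ^ n ≤ Λ (n + 1) := by
      refine le_trans ?_ (h1 (n + 1))
      exact mul_le_mul_of_nonneg_left (pow_le_pow_right₀ hl.le (Nat.le_succ n)) hc.le
    have h5 : c * l ^ n ≤ Real.sqrt (Λ n * Λ (n + 1)) := by
      rw [Real.le_sqrt' hcl]
      nlinarith [mul_le_mul (h1 n) h4 hcl.le (hcl.le.trans (h1 n))]
    calc K / Real.sqrt (Λ n * Λ (n + 1)) ≤ K / (c * l ^ n) :=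
          div_le_div_of_nonneg_left hK hcl h5
      _ = K / c * (l⁻¹) ^ n := by
          rw [inv_pow]
          field_simp
  obtain ⟨θ, hθ⟩ := cauchySeq_tendsto_of_complete (cauchySeq_of_le_geometric (l⁻¹) (K / c) hq1 hd)
  refine ⟨θ, hθ, fun m => ?_⟩
  have := dist_le_of_le_geometric_of_tendsto (l⁻¹) (K / c) hq1 hd hθ m
  rwa [Real.dist_eq] at this

end Pool.Agent.LibK3Q

namespace Pool.Agent.LibK3P.Sys0

variable {L : Type} [Field L] [Algebra ℂ L] (X : Sys0 L)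

/-- The defect in the Hodge index inequality. -/
def Qd (β : X.S.Λ) : ℤ := X.S.form X.S.A β ^ 2 - X.S.form X.S.A X.S.A * X.S.form β β

theorem Qd_nonneg (β : X.S.Λ) : 0 ≤ X.Qd β := by
  have h := sq_le X.A_sq_pos β
  unfold Qd
  linarith

/-- The estimate for consecutive classes with an explicit constant. -/
theorem ratio_le_unif (β : X.S.Λ) (m : ℤ) :
    |(X.S.form (X.α (m + 1)) β : ℝ) / X.S.form (X.α (m + 1)) X.S.A -
      (X.S.form (X.α m) β : ℝ) / X.S.form (X.α m) X.S.A| ≤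
    Real.sqrt (2 * X.S.form (X.α 1) X.S.A) * Real.sqrt (X.Qd β) /
      Real.sqrt ((X.S.form (X.α m) X.S.A : ℝ) * X.S.form (X.α (m + 1)) X.S.A) := by
  have hs1 : (1 : ℤ) ≤ X.S.form X.S.A X.S.A := by
    have h := X.A_sq_pos
    omega
  have hQ0' := X.Qd_nonneg β
  obtain ⟨Q, hQ'⟩ : ∃ Q : ℤ, Q = X.Qd β := ⟨_, rfl⟩
  rw [← hQ'] at hQ0' ⊢
  have hQ := hQ'
  unfold Qd at hQ
  obtain ⟨s, hs⟩ : ∃ s : ℤ, s = X.S.form X.S.A X.S.A := ⟨_, rfl⟩
  rw [← hs] at hs1 hQ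
  have hQ0 : 0 ≤ Q := hQ0'
  obtain ⟨t, ht⟩ : ∃ t : ℤ, t = X.S.form (X.α 1) X.S.A := ⟨_, rfl⟩
  have ht1 : 1 ≤ t := by
    rw [ht]
    exact X.one_le_form_α_A 1
  rw [← ht]
  obtain ⟨a, ha⟩ : ∃ a : ℤ, a = X.S.form (X.α m) X.S.A := ⟨_, rfl⟩
  obtain ⟨b, hb⟩ : ∃ b : ℤ, b = X.S.form (X.α (m + 1)) X.S.A := ⟨_, rfl⟩
  have ha1 : 1 ≤ a := by
    rw [ha]
    exact X.one_le_form_α_A m
  have hb1 : 1 ≤ b := by
    rw [hb]
    exact X.one_le_form_α_A (m + 1)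
  rw [← ha, ← hb]
  obtain ⟨p, hp⟩ : ∃ p : ℤ, p = X.S.form (X.α (m + 1)) β := ⟨_, rfl⟩
  obtain ⟨q, hq⟩ : ∃ q : ℤ, q = X.S.form (X.α m) β := ⟨_, rfl⟩
  rw [← hp, ← hq]
  have haa : X.S.form (X.α m) (X.α m) = s := by
    rw [X.form_α_α', sub_self, X.α_zero, hs]
  have hbb : X.S.form (X.α (m + 1)) (X.α (m + 1)) = s := by
    rw [X.form_α_α', sub_self, X.α_zero, hs]
  have hba : X.S.form (X.α (m + 1)) (X.α m) = t := by
    rw [X.form_α_α', show m + 1 - m = 1 by ring, ht]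
  have hab : X.S.form (X.α m) (X.α (m + 1)) = t := by
    rw [X.S.symm, hba]
  have hAa : X.S.form X.S.A (X.α m) = a := by
    rw [X.S.symm, ha]
  have hAb : X.S.form X.S.A (X.α (m + 1)) = b := by
    rw [X.S.symm, hb]
  have key := cs_comp X.A_sq_pos (a • X.α (m + 1) - b • X.α m) β
  simp only [map_sub, map_zsmul, LinearMap.sub_apply, LinearMap.smul_apply, smul_eq_mul,
    haa, hbb, hba, hab, hAa, hAb, ← hs, ← hp, ← hq] at key
  rw [← hQ] at key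
  have h1 : (s * (a * p - b * q)) ^ 2 ≤ s * (2 * a * b * t) * Q := by
    have h2 : (a * b - b * a) ^ 2 - s * (a * (a * s - b * t) - b * (a * t - b * s)) ≤
        s * (2 * a * b * t) := by
      have h3 : 0 ≤ s * (s * (a ^ 2 + b ^ 2)) := by positivity
      nlinarith
    have h4 : (s * (a * p - b * q) - (a * b - b * a) * X.S.form X.S.A β) ^ 2 =
        (s * (a * p - b * q)) ^ 2 := by ring
    calc (s * (a * p - b * q)) ^ 2
        = (s * (a * p - b * q) - (a * b - b * a) * X.S.form X.S.A β) ^ 2 := h4.symm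
      _ ≤ ((a * b - b * a) ^ 2 - s * (a * (a * s - b * t) - b * (a * t - b * s))) * Q := key
      _ ≤ s * (2 * a * b * t) * Q := mul_le_mul_of_nonneg_right h2 hQ0
  have h5 : (a * p - b * q) ^ 2 ≤ 2 * t * Q * (a * b) := by
    have h6 : s ^ 2 * (a * p - b * q) ^ 2 ≤ s ^ 2 * (2 * t * Q * (a * b)) := by
      have h7 : 0 ≤ 2 * t * Q * (a * b) := by positivity
      have h8 : s * (2 * t * Q * (a * b)) ≤ s ^ 2 * (2 * t * Q * (a * b)) := by
        have : s ≤ s ^ 2 := by nlinarith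
        exact mul_le_mul_of_nonneg_right this h7
      calc s ^ 2 * (a * p - b * q) ^ 2 = (s * (a * p - b * q)) ^ 2 := by ring
        _ ≤ s * (2 * a * b * t) * Q := h1
        _ = s * (2 * t * Q * (a * b)) := by ring
        _ ≤ _ := h8
    exact le_of_mul_le_mul_left h6 (by positivity)
  have haR : (0 : ℝ) < a := by exact_mod_cast (by omega : 0 < a)
  have hbR : (0 : ℝ) < b := by exact_mod_cast (by omega : 0 < b)
  have htR : (0 : ℝ) < t := by exact_mod_cast (by omega : 0 < t)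
  have h9 : (p : ℝ) / b - q / a = (a * p - b * q) / (a * b) := by
    field_simp
  have h5R : ((a : ℝ) * p - b * q) ^ 2 ≤ 2 * t * Q * (a * b) := by exact_mod_cast h5
  have h10 : ((p : ℝ) / b - q / a) ^ 2 ≤ 2 * t * Q / (a * b) := by
    rw [h9, div_pow, div_le_div_iff₀ (by positivity) (by positivity)]
    have h11 : (0 : ℝ) < a * b := by positivity
    calc ((a : ℝ) * p - b * q) ^ 2 * (a * b) ≤ 2 * t * Q * (a * b) * (a * b) :=
          mul_le_mul_of_nonneg_right h5R h11.le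
      _ = 2 * t * Q * (a * b) ^ 2 := by ring
  have h12 := Real.abs_le_sqrt h10
  rw [Real.sqrt_div' _ (by positivity), Real.sqrt_mul (by positivity)] at h12
  exact h12

/-- The limit of the normalised degrees `(γ^m h . β) / (γ^m h . h)`. -/
noncomputable def tp (β : X.S.Λ) : ℝ :=
  limUnder atTop (fun m : ℕ => (X.S.form (X.α m) β : ℝ) / X.S.form (X.α m) X.S.A)

private theorem Q2_main (h : X.PosEnt) : ∃ K₀ q : ℝ, 0 < K₀ ∧ 0 < q ∧ q < 1 ∧ ∀ β : X.S.Λ,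
    Tendsto (fun m : ℕ => (X.S.form (X.α m) β : ℝ) / X.S.form (X.α m) X.S.A) atTop
      (nhds (X.tp β)) ∧
    ∀ m : ℕ, |(X.S.form (X.α m) β : ℝ) / X.S.form (X.α m) X.S.A - X.tp β| ≤
      K₀ * q ^ m * Real.sqrt (X.Qd β) := by
  obtain ⟨hl, c, C, hc, hC, h1⟩ := X.isLam_lam h
  have hl0 : 0 < X.lam := by linarith
  have hq0 : 0 < (X.lam)⁻¹ := by positivity
  have hq1 : (X.lam)⁻¹ < 1 := inv_lt_one_of_one_lt₀ hl
  have ht1 : (1 : ℝ) ≤ X.S.form (X.α 1) X.S.A := by exact_mod_cast X.one_le_form_α_A 1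
  obtain ⟨T, hT⟩ : ∃ T : ℝ, T = Real.sqrt (2 * X.S.form (X.α 1) X.S.A) := ⟨_, rfl⟩
  have hT0 : 0 < T := by rw [hT]; positivity
  have h1q : 0 < 1 - (X.lam)⁻¹ := by linarith
  refine ⟨T / c / (1 - (X.lam)⁻¹), (X.lam)⁻¹, by positivity, hq0, hq1, fun β => ?_⟩
  have e1 : ∀ m : ℕ, c * X.lam ^ m ≤ (X.S.form (X.α (m : ℤ)) X.S.A : ℝ) := by
    intro m
    have h2 := (h1 (m : ℤ)).1
    rw [Nat.abs_cast, zpow_natCast] at h2
    exact h2
  have e2 : ∀ m : ℕ, |(X.S.form (X.α ((m + 1 : ℕ) : ℤ)) β : ℝ) /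
      X.S.form (X.α ((m + 1 : ℕ) : ℤ)) X.S.A -
      (X.S.form (X.α (m : ℤ)) β : ℝ) / X.S.form (X.α (m : ℤ)) X.S.A| ≤
      T * Real.sqrt (X.Qd β) / Real.sqrt ((X.S.form (X.α (m : ℤ)) X.S.A : ℝ) *
        X.S.form (X.α ((m + 1 : ℕ) : ℤ)) X.S.A) := by
    intro m
    have h2 := X.ratio_le_unif β (m : ℤ)
    have h3 : ((m + 1 : ℕ) : ℤ) = (m : ℤ) + 1 := by push_cast; ring
    rw [h3]
    rw [← hT] at h2
    exact h2
  obtain ⟨θ, hθ1, hθ2⟩ := LibK3Q.Q2_lim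
    (Λ := fun m : ℕ => (X.S.form (X.α (m : ℤ)) X.S.A : ℝ))
    (b := fun m : ℕ => (X.S.form (X.α (m : ℤ)) β : ℝ)) (K := T * Real.sqrt (X.Qd β)) hl hc
    (by positivity) e1 e2
  have h2 : X.tp β = θ := hθ1.limUnder_eq
  rw [h2]
  refine ⟨hθ1, fun m => ?_⟩
  refine (hθ2 m).trans (le_of_eq ?_)
  ring

theorem tp_tendsto (h : X.PosEnt) (β : X.S.Λ) :
    Tendsto (fun m : ℕ => (X.S.form (X.α m) β : ℝ) / X.S.form (X.α m) X.S.A) atTop
      (nhds (X.tp β)) := by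
  obtain ⟨K₀, q, -, -, -, h1⟩ := X.Q2_main h
  exact (h1 β).1

theorem tp_unif (h : X.PosEnt) : ∃ K₀ q : ℝ, 0 < K₀ ∧ 0 < q ∧ q < 1 ∧ ∀ (β : X.S.Λ) (m : ℕ),
    |(X.S.form (X.α m) β : ℝ) / X.S.form (X.α m) X.S.A - X.tp β| ≤
      K₀ * q ^ m * Real.sqrt (X.Qd β) := by
  obtain ⟨K₀, q, h0, h2, h3, h1⟩ := X.Q2_main h
  exact ⟨K₀, q, h0, h2, h3, fun β => (h1 β).2⟩

theorem tp_nonneg (h : X.PosEnt) {ν : DVal L} (hν : ν ∈ X.S.prm) : 0 ≤ X.tp (X.S.cls ν) := by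
  refine ge_of_tendsto' (X.tp_tendsto h (X.S.cls ν)) fun m => ?_
  have h1 : (1 : ℝ) ≤ X.S.form (X.α m) (X.S.cls ν) := by exact_mod_cast X.form_α_pos m hν
  have h2 : (1 : ℝ) ≤ X.S.form (X.α m) X.S.A := by exact_mod_cast X.one_le_form_α_A m
  positivity

/-- `tp` vanishes at periodic primes only. -/
theorem tp_pos (h : X.PosEnt) {ν : DVal L} (hν : ν ∈ X.S.prm) (hn : ¬ X.Per ν) :
    0 < X.tp (X.S.cls ν) := by
  obtain ⟨c, C, hc, hC, hcC⟩ := X.growthA h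
  obtain ⟨c₁, C₁, hc₁, hC₁, h1⟩ := X.growth h hν hn
  have hlam : 0 < X.lam := by linarith [X.lam_gt]
  have h2 : c₁ / C ≤ X.tp (X.S.cls ν) := by
    refine ge_of_tendsto' (X.tp_tendsto h (X.S.cls ν)) fun m => ?_
    have h3 := (h1 m).1
    have h4 := (hcC m).2
    have h5 : (1 : ℝ) ≤ X.S.form (X.α m) X.S.A := by exact_mod_cast X.one_le_form_α_A m
    rw [div_le_div_iff₀ hC (by linarith)]
    calc c₁ * (X.S.form (X.α m) X.S.A : ℝ) ≤ c₁ * (C * X.lam ^ |(m : ℤ)|) :=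
          mul_le_mul_of_nonneg_left h4 hc₁.le
      _ = c₁ * X.lam ^ |(m : ℤ)| * C := by ring
      _ ≤ (X.S.form (X.α m) (X.S.cls ν) : ℝ) * C := mul_le_mul_of_nonneg_right h3 hC.le
  exact lt_of_lt_of_le (by positivity) h2

/-- `tp` vanishes at periodic primes. -/
theorem tp_per (h : X.PosEnt) {ν : DVal L} (hν : ν ∈ X.S.prm) (hn : X.Per ν) :
    X.tp (X.S.cls ν) = 0 := by
  obtain ⟨c, C, hc, hC, hcC⟩ := X.growthA h
  have hlam := X.lam_gt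
  have hlam0 : 0 < X.lam := by linarith
  obtain ⟨K, hK⟩ : ∃ K : ℝ, ∀ m : ℕ, (X.S.form (X.α m) (X.S.cls ν) : ℝ) ≤ K := by
    obtain ⟨K, hK⟩ := ((X.orbit_finite hn).image fun μ => X.S.form X.S.A (X.S.cls μ)).bddAbove
    refine ⟨K, fun m => ?_⟩
    have h1 := X.form_α_mv 0 (-(m : ℤ)) hν
    rw [X.α_zero, sub_neg_eq_add, zero_add] at h1
    rw [← h1]
    exact_mod_cast hK ⟨_, ⟨-(m : ℤ), rfl⟩, rfl⟩
  refine tendsto_nhds_unique (X.tp_tendsto h (X.S.cls ν)) ?_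
  have h2 : Tendsto (fun m : ℕ => K / c * (X.lam⁻¹) ^ m) atTop (nhds (K / c * 0)) :=
    (tendsto_pow_atTop_nhds_zero_of_lt_one (by positivity)
      (inv_lt_one_of_one_lt₀ hlam)).const_mul _
  rw [mul_zero] at h2
  refine squeeze_zero (fun m => ?_) (fun m => ?_) h2
  · have h1 : (1 : ℝ) ≤ X.S.form (X.α m) (X.S.cls ν) := by exact_mod_cast X.form_α_pos m hν
    have h2 : (1 : ℝ) ≤ X.S.form (X.α m) X.S.A := by exact_mod_cast X.one_le_form_α_A m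
    positivity
  · have h1 : (1 : ℝ) ≤ X.S.form (X.α m) (X.S.cls ν) := by exact_mod_cast X.form_α_pos m hν
    have h3 := (hcC m).1
    rw [Nat.abs_cast, zpow_natCast] at h3
    have h4 : 0 < c * X.lam ^ m := by positivity
    calc (X.S.form (X.α m) (X.S.cls ν) : ℝ) / X.S.form (X.α m) X.S.A
        ≤ K / X.S.form (X.α m) X.S.A :=
          div_le_div_of_nonneg_right (hK m) (h4.le.trans h3)
      _ ≤ K / (c * X.lam ^ m) := div_le_div_of_nonneg_left (by linarith [hK m]) h4 h3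
      _ = K / c * (X.lam⁻¹) ^ m := by rw [inv_pow]; field_simp

/-- The system of another automorphism. -/
def wg (γ' : L ≃ₐ[ℂ] L) (h : Perm X.S γ') : Sys0 L :=
  { X with γ := γ', perm := h }

/-- The system of the inverse. -/
def inv' : Sys0 L := X.wg X.γ⁻¹ X.perm.inv

theorem inv_α (m : ℤ) : X.inv'.α m = X.α (-m) := by
  show X.S.cl (tr ((X.γ⁻¹) ^ m) (hyp X.g)) = X.S.cl (tr (X.γ ^ (-m)) (hyp X.g))
  rw [inv_zpow']

theorem inv_form (m : ℤ) (β : X.S.Λ) : X.inv'.S.form (X.inv'.α m) β = X.S.form (X.α (-m)) β := by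
  rw [inv_α]
  rfl

theorem inv_form_A (m : ℤ) : X.inv'.S.form (X.inv'.α m) X.inv'.S.A = X.S.form (X.α m) X.S.A := by
  rw [← X.form_α_neg]
  exact X.inv_form m X.S.A

theorem inv_posEnt (h : X.PosEnt) : X.inv'.PosEnt := by
  obtain ⟨μ, c, hμ, hc, h1⟩ := h
  refine ⟨μ, c, hμ, hc, fun m => ?_⟩
  rw [X.inv_form_A]
  exact h1 m

theorem inv_per {ν : DVal L} : X.inv'.Per ν ↔ X.Per ν := by
  constructor
  · rintro ⟨n, hn, h⟩
    refine ⟨n, hn, ?_⟩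
    have h1 : mv (X.γ⁻¹ ^ n) ν = ν := h
    have h2 := congrArg (mv (X.γ ^ n)) h1
    rw [← mv_mul, inv_pow, mul_inv_cancel, mv_one] at h2
    exact h2.symm
  · rintro ⟨n, hn, h⟩
    refine ⟨n, hn, ?_⟩
    show mv (X.γ⁻¹ ^ n) ν = ν
    have h2 := congrArg (mv (X.γ⁻¹ ^ n)) h
    rw [← mv_mul, inv_pow, inv_mul_cancel, mv_one] at h2
    rw [inv_pow]
    exact h2.symm

end Pool.Agent.LibK3P.Sys0
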