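import Pool.Agent.LibK3Q.Q2

/-!
The contraction rate, the action of the automorphism on the limit functional, and the bound by the
degree (helper33).
-/

set_option autoImplicit false

open Pool.Agent.LibGMM Pool.Agent.LibK Pool.Agent.LibKB
open Pool.Agent.LibLB (PSurf RLR)
open Pool.Agent.LibCov80 (Over)
open Pool.Agent.LibK3 Pool.Agent.LibK3P
open Filter

namespace Pool.Agent.LibK3P.Sys0

variable {L : Type} [Field L] [Algebra ℂ L] (X : Sys0 L)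

/-- The limit of `Λ_m / Λ_(m+1)`. -/
noncomputable def rt : ℝ := X.tp (X.α 1)

theorem Λ_pos (m : ℤ) : (0 : ℝ) < X.S.form (X.α m) X.S.A := by
  have h2 : (1 : ℝ) ≤ X.S.form (X.α m) X.S.A := by exact_mod_cast X.one_le_form_α_A m
  linarith

theorem rt_tendsto (h : X.PosEnt) : Tendsto (fun m : ℕ => (X.S.form (X.α m) X.S.A : ℝ) /
    X.S.form (X.α (m + 1 : ℕ)) X.S.A) atTop (nhds X.rt) := by
  have h1 := (tendsto_add_atTop_iff_nat 1).2 (X.tp_tendsto h (X.α 1))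
  refine h1.congr fun m => ?_
  have h2 : X.S.form (X.α ((m + 1 : ℕ) : ℤ)) (X.α 1) = X.S.form (X.α m) X.S.A := by
    rw [X.form_α_α', show ((m + 1 : ℕ) : ℤ) - 1 = m by push_cast; ring]
  rw [h2]

theorem rt_pos (h : X.PosEnt) : 0 < X.rt := by
  obtain ⟨k, hk⟩ := X.form_α_le (X.α (-1))
  have h2 : (1 : ℝ) / (k + 1) ≤ X.rt := by
    refine ge_of_tendsto' (X.rt_tendsto h) fun m => ?_
    have h3 := hk (m : ℤ)
    rw [X.form_α_α', show (m : ℤ) - -1 = ((m + 1 : ℕ) : ℤ) by push_cast; ring] at h3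
    have h4 : (X.S.form (X.α ((m + 1 : ℕ) : ℤ)) X.S.A : ℝ) ≤
        (k : ℝ) * X.S.form (X.α (m : ℤ)) X.S.A := by
      exact_mod_cast (le_abs_self _).trans h3
    have h5 := X.Λ_pos m
    rw [div_le_div_iff₀ (by positivity) (X.Λ_pos _)]
    linarith
  exact lt_of_lt_of_le (by positivity) h2

theorem rt_lt (h : X.PosEnt) : X.rt < 1 := by
  obtain ⟨c, C, hc, hC, hcC⟩ := X.growthA h
  have hlam := X.lam_gt
  have hlam0 : 0 < X.lam := by linarith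
  have h1 : ∀ n : ℕ, Tendsto (fun m : ℕ => (X.S.form (X.α m) X.S.A : ℝ) /
      X.S.form (X.α (m + n : ℕ)) X.S.A) atTop (nhds (X.rt ^ n)) := by
    intro n
    induction n with
    | zero =>
      refine Tendsto.congr (f₁ := fun _ => (1 : ℝ)) (fun m => ?_) (by simp)
      exact (div_self (X.Λ_pos m).ne').symm
    | succ n ih =>
      rw [pow_succ]
      have h2 := ih.mul ((tendsto_add_atTop_iff_nat n).2 (X.rt_tendsto h))
      refine h2.congr fun m => ?_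
      have h3 := (X.Λ_pos ((m + n : ℕ) : ℤ)).ne'
      have h4 := (X.Λ_pos ((m + n + 1 : ℕ) : ℤ)).ne'
      rw [← add_assoc m n 1]
      field_simp
  have h2 : ∀ n : ℕ, X.rt ^ n ≤ C / c * (X.lam⁻¹) ^ n := by
    intro n
    refine le_of_tendsto' (h1 n) fun m => ?_
    have h3 := (hcC (m : ℤ)).2
    have h4 := (hcC ((m + n : ℕ) : ℤ)).1
    rw [Nat.abs_cast, zpow_natCast] at h3 h4
    rw [div_le_iff₀ (X.Λ_pos _)]
    have h5 : C / c * (X.lam⁻¹) ^ n * (c * X.lam ^ (m + n)) = C * X.lam ^ m := by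
      rw [pow_add, inv_pow]
      field_simp
    have h6 : C / c * (X.lam⁻¹) ^ n * (c * X.lam ^ (m + n)) ≤
        C / c * (X.lam⁻¹) ^ n * X.S.form (X.α ((m + n : ℕ) : ℤ)) X.S.A :=
      mul_le_mul_of_nonneg_left h4 (by positivity)
    linarith
  by_contra hcon
  push Not at hcon
  have h3 : Tendsto (fun n : ℕ => C / c * (X.lam⁻¹) ^ n) atTop (nhds (C / c * 0)) :=
    (tendsto_pow_atTop_nhds_zero_of_lt_one (by positivity)
      (inv_lt_one_of_one_lt₀ hlam)).const_mul _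
  rw [mul_zero] at h3
  have h4 : (1 : ℝ) ≤ 0 := by
    refine ge_of_tendsto' h3 fun n => ?_
    exact (one_le_pow₀ hcon).trans (h2 n)
  linarith

theorem tp_mv (h : X.PosEnt) {ν : DVal L} (hν : ν ∈ X.S.prm) :
    X.tp (X.S.cls (mv X.γ ν)) = X.rt * X.tp (X.S.cls ν) := by
  have h1 := (tendsto_add_atTop_iff_nat 1).2 (X.tp_tendsto h (X.S.cls (mv X.γ ν)))
  refine tendsto_nhds_unique h1 ?_
  refine ((X.rt_tendsto h).mul (X.tp_tendsto h (X.S.cls ν))).congr fun m => ?_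
  have h2 := X.form_α_mv ((m + 1 : ℕ) : ℤ) 1 hν
  rw [zpow_one, show ((m + 1 : ℕ) : ℤ) - 1 = m by push_cast; ring] at h2
  rw [h2]
  have h3 := (X.Λ_pos (m : ℤ)).ne'
  have h4 := (X.Λ_pos ((m + 1 : ℕ) : ℤ)).ne'
  field_simp

theorem inv_rt (h : X.PosEnt) : X.inv'.rt = X.rt := by
  refine tendsto_nhds_unique (X.inv'.rt_tendsto (X.inv_posEnt h)) ?_
  refine (X.rt_tendsto h).congr fun m => ?_
  rw [X.inv_form_A, X.inv_form_A]

/-- The other limit functional. -/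
noncomputable def tm (β : X.S.Λ) : ℝ := X.inv'.tp β

theorem tm_mv (h : X.PosEnt) {ν : DVal L} (hν : ν ∈ X.S.prm) :
    X.tm (X.S.cls ν) = X.rt * X.tm (X.S.cls (mv X.γ ν)) := by
  have h1 := X.inv'.tp_mv (X.inv_posEnt h) (X.perm.prm ν hν)
  have h2 : mv X.inv'.γ (mv X.γ ν) = ν := by
    show mv X.γ⁻¹ (mv X.γ ν) = ν
    rw [← mv_mul, inv_mul_cancel, mv_one]
  rw [h2, X.inv_rt h] at h1
  exact h1

/-- Adjunction bounds the defect of a prime. -/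
theorem exists_Qd_le : ∃ C : ℝ, 0 < C ∧ ∀ ν ∈ X.S.prm,
    Real.sqrt (X.Qd (X.S.cls ν)) ≤ C * X.S.form X.S.A (X.S.cls ν) := by
  obtain ⟨k, hk⟩ := X.exists_nef X.S.K
  have hs := X.A_sq_pos
  obtain ⟨s, hs'⟩ : ∃ s : ℤ, s = X.S.form X.S.A X.S.A := ⟨_, rfl⟩
  rw [← hs'] at hs
  have hsR : (0 : ℝ) < s := by exact_mod_cast hs
  refine ⟨Real.sqrt (1 + s * (k + 2)), by positivity, fun ν hν => ?_⟩
  obtain ⟨a, ha⟩ : ∃ a : ℤ, a = X.S.form X.S.A (X.S.cls ν) := ⟨_, rfl⟩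
  have ha1 : 1 ≤ a := by rw [ha]; exact LibCUR2.A_pos X.S hν
  have h1 := LibCUR2.pa_nonneg X.S hν
  have h2 := (le_abs_self _).trans (hk ν hν)
  rw [← ha] at h2 ⊢
  have h3 : X.Qd (X.S.cls ν) ≤ (1 + s * (k + 2)) * a ^ 2 := by
    unfold Qd
    rw [← hs', ← ha]
    have h4 : -X.S.form (X.S.cls ν) (X.S.cls ν) ≤ (k + 2) * a ^ 2 := by
      have h6 : (k + 2 : ℤ) * 1 ≤ (k + 2) * a := mul_le_mul_of_nonneg_left ha1 (by positivity)
      have h7 : a * 1 ≤ a * a := mul_le_mul_of_nonneg_left ha1 (by omega)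
      have h8 : (k + 2 : ℤ) * a ≤ (k + 2) * a ^ 2 := by
        rw [sq]
        exact mul_le_mul_of_nonneg_left (by linarith) (by positivity)
      nlinarith
    have h5 := mul_le_mul_of_nonneg_left h4 hs.le
    linarith
  have h4 : (X.Qd (X.S.cls ν) : ℝ) ≤ (1 + s * (k + 2)) * (a : ℝ) ^ 2 := by exact_mod_cast h3
  have haR : (0 : ℝ) ≤ a := by exact_mod_cast (by omega : (0 : ℤ) ≤ a)
  calc Real.sqrt (X.Qd (X.S.cls ν)) ≤ Real.sqrt ((1 + s * (k + 2)) * (a : ℝ) ^ 2) :=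
        Real.sqrt_le_sqrt h4
    _ = Real.sqrt (1 + s * (k + 2)) * a := by
        rw [Real.sqrt_mul (by positivity), Real.sqrt_sq haR]

/-- The normalised degrees at step `m` are close to the limit, relative to the degree. -/
theorem tp_unif' (h : X.PosEnt) : ∃ K₀ q : ℝ, 0 < K₀ ∧ 0 < q ∧ q < 1 ∧ ∀ ν ∈ X.S.prm, ∀ m : ℕ,
    |(X.S.form (X.α m) (X.S.cls ν) : ℝ) / X.S.form (X.α m) X.S.A - X.tp (X.S.cls ν)| ≤
      K₀ * q ^ m * X.S.form X.S.A (X.S.cls ν) := by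
  obtain ⟨K₀, q, hK, hq0, hq1, h1⟩ := X.tp_unif h
  obtain ⟨C, hC, h2⟩ := X.exists_Qd_le
  refine ⟨K₀ * C, q, by positivity, hq0, hq1, fun ν hν m => (h1 _ m).trans ?_⟩
  calc K₀ * q ^ m * Real.sqrt (X.Qd (X.S.cls ν)) ≤
      K₀ * q ^ m * (C * X.S.form X.S.A (X.S.cls ν)) :=
        mul_le_mul_of_nonneg_left (h2 ν hν) (by positivity)
    _ = _ := by ring

theorem tp_le (h : X.PosEnt) : ∃ C : ℝ, 0 < C ∧ ∀ ν ∈ X.S.prm,
    X.tp (X.S.cls ν) ≤ C * X.S.form X.S.A (X.S.cls ν) := by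
  obtain ⟨K₀, q, hK, hq0, hq1, h1⟩ := X.tp_unif' h
  refine ⟨1 + K₀, by positivity, fun ν hν => ?_⟩
  have h2 := (abs_le.1 (h1 ν hν 0)).1
  have h3 := X.A_sq_pos
  have h4 : (1 : ℝ) ≤ X.S.form X.S.A X.S.A := by exact_mod_cast (by omega : (1 : ℤ) ≤ _)
  have h5 : (1 : ℝ) ≤ X.S.form X.S.A (X.S.cls ν) := by exact_mod_cast LibCUR2.A_pos X.S hν
  have h6 : (X.S.form X.S.A (X.S.cls ν) : ℝ) / X.S.form X.S.A X.S.A ≤
      X.S.form X.S.A (X.S.cls ν) := div_le_self (by linarith) h4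
  have h7 : X.α ((0 : ℕ) : ℤ) = X.S.A := X.α_zero
  rw [h7, pow_zero, mul_one] at h2
  linarith

end Pool.Agent.LibK3P.Sys0
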