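import Pool.Agent.LibK3P.P16

/-!
The lower bound: the sum of the two limit functionals dominates the degree (helper33).
-/

set_option autoImplicit false

open Pool.Agent.LibGMM Pool.Agent.LibK Pool.Agent.LibKB
open Pool.Agent.LibLB (PSurf RLR)
open Pool.Agent.LibCov80 (Over)
open Pool.Agent.LibK3 Pool.Agent.LibK3P
open Filter

namespace Pool.Agent.LibK3Q

theorem fin_min {α : Type*} {T : Set α} (hT : T.Finite) (f : α → ℝ) (hf : ∀ x ∈ T, 0 < f x) :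
    ∃ δ : ℝ, 0 < δ ∧ ∀ x ∈ T, δ ≤ f x := by
  rcases T.eq_empty_or_nonempty with h | h
  · exact ⟨1, one_pos, fun x hx => by rw [h] at hx; exact absurd hx (Set.notMem_empty x)⟩
  · obtain ⟨a, ha, h1⟩ := Set.exists_min_image T f hT h
    exact ⟨f a, hf a ha, h1⟩

section

variable {L : Type} [Field L] [Algebra ℂ L] {S : PSurf L}

/-- The intersection number of the two classes is large (in integers). -/
private theorem Q5_E {α₁ α₂ : S.Λ} (hA : 0 < S.form S.A S.A)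
    (e₁ : S.form α₁ α₁ = S.form S.A S.A) (e₂ : S.form α₂ α₂ = S.form S.A S.A)
    (l₁ : 1 ≤ S.form α₁ S.A) (l₂ : 1 ≤ S.form α₂ S.A) (β : S.Λ) :
    S.form S.A S.A * (S.form α₂ S.A * S.form α₁ β - S.form α₁ S.A * S.form α₂ β) ^ 2 ≤
      2 * (S.form α₁ S.A * S.form α₂ S.A) * S.form α₁ α₂ *
        (S.form S.A β ^ 2 - S.form S.A S.A * S.form β β) := by
  obtain ⟨s, hs⟩ : ∃ s : ℤ, s = S.form S.A S.A := ⟨_, rfl⟩
  obtain ⟨a, ha⟩ : ∃ a : ℤ, a = S.form α₁ S.A := ⟨_, rfl⟩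
  obtain ⟨b, hb⟩ : ∃ b : ℤ, b = S.form α₂ S.A := ⟨_, rfl⟩
  obtain ⟨E, hE⟩ : ∃ E : ℤ, E = S.form α₁ α₂ := ⟨_, rfl⟩
  obtain ⟨Q, hQ⟩ : ∃ Q : ℤ, Q = S.form S.A β ^ 2 - s * S.form β β := ⟨_, rfl⟩
  have hQ0 : 0 ≤ Q := by
    have h := sq_le hA β
    rw [← hs] at h
    rw [hQ]
    linarith
  have hA1 : S.form S.A α₁ = a := by rw [S.symm, ha]
  have hA2 : S.form S.A α₂ = b := by rw [S.symm, hb]
  have hE' : S.form α₂ α₁ = E := by rw [S.symm, hE]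
  have key := cs_comp hA (b • α₁ - a • α₂) β
  simp only [map_sub, map_zsmul, LinearMap.sub_apply, LinearMap.smul_apply, smul_eq_mul,
    e₁, e₂, hA1, hA2, hE', ← hE, ← hs] at key
  rw [← hs] at hA
  rw [← ha] at l₁
  rw [← hb] at l₂
  rw [← hQ] at key
  rw [← hs, ← ha, ← hb, ← hE, ← hQ]
  obtain ⟨p, hp⟩ : ∃ p : ℤ, p = S.form α₁ β := ⟨_, rfl⟩
  obtain ⟨q, hq⟩ : ∃ q : ℤ, q = S.form α₂ β := ⟨_, rfl⟩
  rw [← hp, ← hq] at key ⊢
  have h1 : s ^ 2 * (b * p - a * q) ^ 2 ≤ s * (2 * (a * b) * E * Q) := by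
    have h2 : (b * a - a * b) ^ 2 - s * (b * (b * s - a * E) - a * (b * E - a * s)) ≤
        s * (2 * (a * b) * E) := by
      have h3 : 0 ≤ s * (s * (a ^ 2 + b ^ 2)) := by positivity
      nlinarith
    calc s ^ 2 * (b * p - a * q) ^ 2 = (s * (b * p - a * q) - (b * a - a * b) * S.form S.A β) ^ 2 := by
          ring
      _ ≤ ((b * a - a * b) ^ 2 - s * (b * (b * s - a * E) - a * (b * E - a * s))) * Q := by
          refine le_trans key (le_of_eq ?_)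
          ring
      _ ≤ s * (2 * (a * b) * E) * Q := mul_le_mul_of_nonneg_right h2 hQ0
      _ = s * (2 * (a * b) * E * Q) := by ring
  refine le_of_mul_le_mul_left ?_ hA
  calc s * (s * (b * p - a * q) ^ 2) = s ^ 2 * (b * p - a * q) ^ 2 := by ring
    _ ≤ s * (2 * (a * b) * E * Q) := h1
    _ = _ := by ring

/-- **The lower bound.** `α₁ N`, `α₂ N` are two sequences of classes with the same square as `A`,
`t₁`, `t₂` the limits of their normalised degrees on primes; if `t₁ ≠ t₂` then `t₁ + t₂` dominates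
the degree, where it is positive. -/
theorem lower_abs {α₁ α₂ : ℕ → S.Λ} {t₁ t₂ : DVal L → ℝ} (hA : 0 < S.form S.A S.A)
    (e₁ : ∀ N, S.form (α₁ N) (α₁ N) = S.form S.A S.A)
    (e₂ : ∀ N, S.form (α₂ N) (α₂ N) = S.form S.A S.A)
    (l₁ : ∀ N, 1 ≤ S.form (α₁ N) S.A) (l₂ : ∀ N, 1 ≤ S.form (α₂ N) S.A)
    {K₁ q₁ K₂ q₂ : ℝ} (hq₁ : 0 < q₁) (hq₁' : q₁ < 1) (hq₂ : 0 < q₂) (hq₂' : q₂ < 1)
    (u₁ : ∀ ν ∈ S.prm, ∀ N, |(S.form (α₁ N) (S.cls ν) : ℝ) / S.form (α₁ N) S.A - t₁ ν| ≤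
      K₁ * q₁ ^ N * S.form S.A (S.cls ν))
    (u₂ : ∀ ν ∈ S.prm, ∀ N, |(S.form (α₂ N) (S.cls ν) : ℝ) / S.form (α₂ N) S.A - t₂ ν| ≤
      K₂ * q₂ ^ N * S.form S.A (S.cls ν))
    {ν₀ : DVal L} (hν₀ : ν₀ ∈ S.prm) (hne : t₁ ν₀ ≠ t₂ ν₀) :
    ∃ δ : ℝ, 0 < δ ∧ ∀ ν ∈ S.prm, 0 < t₁ ν + t₂ ν →
      δ * S.form S.A (S.cls ν) ≤ t₁ ν + t₂ ν := by
  have hAR : (0 : ℝ) < S.form S.A S.A := by exact_mod_cast hA
  obtain ⟨s, hs⟩ : ∃ s : ℤ, s = S.form S.A S.A := ⟨_, rfl⟩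
  rw [← hs] at hAR
  have hs0 : 0 < s := by rw [hs]; exact hA
  -- the intersection numbers are large
  obtain ⟨κ, hκ0, hκ⟩ : ∃ κ : ℝ, 0 < κ ∧ ∀ᶠ N in atTop,
      κ * ((S.form (α₁ N) S.A : ℝ) * S.form (α₂ N) S.A) ≤ S.form (α₁ N) (α₂ N) := by
    obtain ⟨Q, hQ⟩ : ∃ Q : ℤ, Q = S.form S.A (S.cls ν₀) ^ 2 -
      S.form S.A S.A * S.form (S.cls ν₀) (S.cls ν₀) := ⟨_, rfl⟩
    have hQ0 : 0 ≤ Q := by
      have h := sq_le hA (S.cls ν₀)
      rw [hQ]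
      linarith
    have hQR : (0 : ℝ) ≤ Q := by exact_mod_cast hQ0
    obtain ⟨d, hd⟩ : ∃ d : ℝ, d = |t₁ ν₀ - t₂ ν₀| := ⟨_, rfl⟩
    have hd0 : 0 < d := by rw [hd]; exact abs_pos.2 (sub_ne_zero.2 hne)
    refine ⟨s * (d / 2) ^ 2 / (2 * (Q + 1)), by positivity, ?_⟩
    have h1 : ∀ᶠ N : ℕ in atTop, K₁ * q₁ ^ N * S.form S.A (S.cls ν₀) < d / 4 := by
      have h2 : Tendsto (fun N : ℕ => K₁ * q₁ ^ N * (S.form S.A (S.cls ν₀) : ℝ)) atTop
          (nhds (K₁ * 0 * (S.form S.A (S.cls ν₀) : ℝ))) :=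
        ((tendsto_pow_atTop_nhds_zero_of_lt_one hq₁.le hq₁').const_mul _).mul_const _
      rw [mul_zero, zero_mul] at h2
      exact h2.eventually (gt_mem_nhds (by positivity))
    have h2 : ∀ᶠ N : ℕ in atTop, K₂ * q₂ ^ N * S.form S.A (S.cls ν₀) < d / 4 := by
      have h2 : Tendsto (fun N : ℕ => K₂ * q₂ ^ N * (S.form S.A (S.cls ν₀) : ℝ)) atTop
          (nhds (K₂ * 0 * (S.form S.A (S.cls ν₀) : ℝ))) :=
        ((tendsto_pow_atTop_nhds_zero_of_lt_one hq₂.le hq₂').const_mul _).mul_const _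
      rw [mul_zero, zero_mul] at h2
      exact h2.eventually (gt_mem_nhds (by positivity))
    filter_upwards [h1, h2] with N h3 h4
    have h5 := Q5_E hA (e₁ N) (e₂ N) (l₁ N) (l₂ N) (S.cls ν₀)
    rw [← hQ, ← hs] at h5
    obtain ⟨a, ha⟩ : ∃ a : ℤ, a = S.form (α₁ N) S.A := ⟨_, rfl⟩
    obtain ⟨b, hb⟩ : ∃ b : ℤ, b = S.form (α₂ N) S.A := ⟨_, rfl⟩
    obtain ⟨E, hE⟩ : ∃ E : ℤ, E = S.form (α₁ N) (α₂ N) := ⟨_, rfl⟩
    obtain ⟨p, hp⟩ : ∃ p : ℤ, p = S.form (α₁ N) (S.cls ν₀) := ⟨_, rfl⟩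
    obtain ⟨q, hq⟩ : ∃ q : ℤ, q = S.form (α₂ N) (S.cls ν₀) := ⟨_, rfl⟩
    have u₁' := u₁ ν₀ hν₀ N
    have u₂' := u₂ ν₀ hν₀ N
    have l₁' := l₁ N
    have l₂' := l₂ N
    rw [← ha, ← hp] at u₁'
    rw [← hb, ← hq] at u₂'
    rw [← ha, ← hb, ← hE, ← hp, ← hq] at h5
    rw [← ha] at l₁'
    rw [← hb] at l₂'
    rw [← ha, ← hb, ← hE]
    have haR : (0 : ℝ) < a := by exact_mod_cast (by omega : 0 < a)
    have hbR : (0 : ℝ) < b := by exact_mod_cast (by omega : 0 < b)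
    have h6 : d / 2 ≤ |(p : ℝ) / a - q / b| := by
      have h7 := abs_le.1 (u₁'.trans h3.le)
      have h8 := abs_le.1 (u₂'.trans h4.le)
      have h9 : |t₁ ν₀ - t₂ ν₀| ≤ |(p : ℝ) / a - q / b| + d / 2 := by
        rw [abs_le]
        constructor
        · linarith [neg_abs_le ((p : ℝ) / a - q / b)]
        · linarith [le_abs_self ((p : ℝ) / a - q / b)]
      rw [← hd] at h9
      linarith
    have h7 : (d / 2) ^ 2 ≤ ((p : ℝ) / a - q / b) ^ 2 := by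
      rw [← sq_abs ((p : ℝ) / a - q / b)]
      exact pow_le_pow_left₀ (by positivity) h6 2
    have h8 : (p : ℝ) / a - q / b = (b * p - a * q) / (a * b) := by field_simp
    have h5R : (s : ℝ) * (b * p - a * q) ^ 2 ≤ 2 * (a * b) * E * Q := by exact_mod_cast h5
    have h9 : (s : ℝ) * (d / 2) ^ 2 * (a * b) ≤ 2 * E * Q := by
      have h10 : (s : ℝ) * (d / 2) ^ 2 * (a * b) * (a * b) ≤ 2 * E * Q * (a * b) := by
        have h11 : (s : ℝ) * (d / 2) ^ 2 * (a * b) * (a * b) ≤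
            (s : ℝ) * ((p : ℝ) / a - q / b) ^ 2 * (a * b) * (a * b) := by gcongr
        have h12 : (s : ℝ) * ((p : ℝ) / a - q / b) ^ 2 * (a * b) * (a * b) =
            (s : ℝ) * ((b : ℝ) * p - a * q) ^ 2 := by
          rw [h8]
          field_simp
        rw [h12] at h11
        refine (h11.trans h5R).trans (le_of_eq ?_)
        ring
      exact le_of_mul_le_mul_right h10 (by positivity)
    have h10 : (0 : ℝ) < s * (d / 2) ^ 2 * (a * b) := by positivity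
    have h11 : (0 : ℝ) ≤ E := by
      by_contra hcon
      push Not at hcon
      have : (E : ℝ) * Q ≤ 0 := mul_nonpos_of_nonpos_of_nonneg hcon.le hQR
      linarith
    rw [div_mul_eq_mul_div, div_le_iff₀ (by positivity)]
    linarith
  -- the multiplier
  obtain ⟨n₀, hn₀⟩ := exists_nat_gt (max (2 / κ) s)
  have hn1 : 2 < κ * n₀ := by
    have h1 := (le_max_left _ _).trans_lt hn₀
    rw [div_lt_iff₀ hκ0] at h1
    linarith
  have hn2 : (s : ℝ) < n₀ := (le_max_right _ _).trans_lt hn₀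
  have hn0 : (0 : ℝ) < n₀ := hAR.trans hn2
  have hn2' : s < n₀ := by exact_mod_cast hn2
  -- the choice of `N`
  have h1 : ∀ᶠ N : ℕ in atTop, n₀ * (K₁ * q₁ ^ N + K₂ * q₂ ^ N) < 1 / 2 := by
    have h2 : Tendsto (fun N : ℕ => (n₀ : ℝ) * (K₁ * q₁ ^ N + K₂ * q₂ ^ N)) atTop
        (nhds ((n₀ : ℝ) * (K₁ * 0 + K₂ * 0))) :=
      (((tendsto_pow_atTop_nhds_zero_of_lt_one hq₁.le hq₁').const_mul _).add
        ((tendsto_pow_atTop_nhds_zero_of_lt_one hq₂.le hq₂').const_mul _)).const_mul _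
    rw [mul_zero, mul_zero, add_zero, mul_zero] at h2
    exact h2.eventually (gt_mem_nhds (by norm_num))
  obtain ⟨N, h2, h3⟩ := (hκ.and h1).exists
  obtain ⟨a, ha⟩ : ∃ a : ℤ, a = S.form (α₁ N) S.A := ⟨_, rfl⟩
  obtain ⟨b, hb⟩ : ∃ b : ℤ, b = S.form (α₂ N) S.A := ⟨_, rfl⟩
  obtain ⟨E, hE⟩ : ∃ E : ℤ, E = S.form (α₁ N) (α₂ N) := ⟨_, rfl⟩
  have l₁' := l₁ N
  have l₂' := l₂ N
  rw [← ha] at l₁'
  rw [← hb] at l₂'
  rw [← ha, ← hb, ← hE] at h2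
  have haR : (0 : ℝ) < a := by exact_mod_cast (by omega : 0 < a)
  have hbR : (0 : ℝ) < b := by exact_mod_cast (by omega : 0 < b)
  have hA1 : S.form S.A (α₁ N) = a := by rw [S.symm, ha]
  have hA2 : S.form S.A (α₂ N) = b := by rw [S.symm, hb]
  have hE' : S.form (α₂ N) (α₁ N) = E := by rw [S.symm, hE]
  obtain ⟨D, hD⟩ : ∃ D : S.Λ, D = ((n₀ : ℤ) * b) • α₁ N + ((n₀ : ℤ) * a) • α₂ N -
    (a * b) • S.A := ⟨_, rfl⟩
  have hDD : S.form D D = n₀ ^ 2 * (s * (a ^ 2 + b ^ 2) + 2 * (a * b) * E) -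
      4 * n₀ * (a * b) ^ 2 + (a * b) ^ 2 * s := by
    rw [hD]
    simp only [map_sub, map_add, map_smul, LinearMap.sub_apply, LinearMap.add_apply,
      LinearMap.smul_apply, smul_eq_mul, e₁, e₂, hA1, hA2, hE', ← hE, ← ha, ← hb, ← hs]
    ring
  have hAD : S.form S.A D = a * b * (2 * n₀ - s) := by
    rw [hD]
    simp only [map_sub, map_add, map_smul, smul_eq_mul, hA1, hA2, ← hs]
    ring
  have hDD0 : 0 < S.form D D := by
    have h4 : (0 : ℝ) < (S.form D D : ℤ) := by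
      rw [hDD]
      push_cast
      have h5 : κ * ((a : ℝ) * b) * (a * b) ≤ E * (a * b) :=
        mul_le_mul_of_nonneg_right h2 (by positivity)
      have h6 : (0 : ℝ) < (a * b) ^ 2 := by positivity
      have h7 : (n₀ : ℝ) ^ 2 * (2 * (κ * ((a : ℝ) * b) * (a * b))) ≤
          (n₀ : ℝ) ^ 2 * (2 * (E * (a * b))) := by gcongr
      have h8 : (0 : ℝ) ≤ (n₀ : ℝ) ^ 2 * (s * (a ^ 2 + b ^ 2)) := by positivity
      have h9 : (0 : ℝ) < (a * b) ^ 2 * s := by positivity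
      have h10 : (0 : ℝ) ≤ 2 * n₀ * (κ * n₀ - 2) * (a * b) ^ 2 := by
        have : (0 : ℝ) ≤ κ * n₀ - 2 := by linarith
        positivity
      linarith
    exact_mod_cast h4
  have hAD0 : 0 < S.form S.A D := by
    rw [hAD]
    have h4 : 0 < a * b := by positivity
    exact mul_pos h4 (by linarith)
  obtain ⟨n, hn, hhh⟩ := exists_eff_mul hDD0 hAD0
  obtain ⟨F, hF1, hF2, hF3⟩ := LibCUR2.exists_effDiv S hhh
  have key : ∀ ν ∈ S.prm, F ν = 0 → (1 : ℝ) / (2 * n₀) * S.form S.A (S.cls ν) ≤ t₁ ν + t₂ ν := by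
    intro ν hν hFν
    have h4 : 0 ≤ S.form (S.cls ν) (S.cl F) := by
      change 0 ≤ S.form (S.cls ν) (∑ᶠ μ ∈ S.prm, F μ • S.cls μ)
      refine finsum_mem_induction (fun v : S.Λ => 0 ≤ S.form (S.cls ν) v) ?_ ?_ ?_
      · rw [map_zero]
      · intro u v hu hv
        rw [map_add]
        exact add_nonneg hu hv
      · intro μ hμ
        rw [map_smul, smul_eq_mul]
        by_cases hμν : ν = μ
        · rw [← hμν, hFν, zero_mul]
        · exact mul_nonneg (hF2 μ hμ) (LibCUR2.C1' S hν hμ hμν)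
    rw [hF3, S.symm, map_nsmul, LinearMap.smul_apply, nsmul_eq_mul] at h4
    have hn0' : (0 : ℤ) < n := by exact_mod_cast hn
    have h5 := nonneg_of_mul_nonneg_right h4 hn0'
    rw [hD] at h5
    simp only [map_sub, map_add, map_smul, LinearMap.sub_apply, LinearMap.add_apply,
      LinearMap.smul_apply, smul_eq_mul] at h5
    obtain ⟨p, hp⟩ : ∃ p : ℤ, p = S.form (α₁ N) (S.cls ν) := ⟨_, rfl⟩
    obtain ⟨q, hq⟩ : ∃ q : ℤ, q = S.form (α₂ N) (S.cls ν) := ⟨_, rfl⟩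
    obtain ⟨c, hc⟩ : ∃ c : ℤ, c = S.form S.A (S.cls ν) := ⟨_, rfl⟩
    have u₁' := u₁ ν hν N
    have u₂' := u₂ ν hν N
    rw [← ha, ← hp, ← hc] at u₁'
    rw [← hb, ← hq, ← hc] at u₂'
    rw [← hp, ← hq, ← hc] at h5
    rw [← hc]
    have hc1 : (1 : ℝ) ≤ c := by
      rw [hc]
      exact_mod_cast LibCUR2.A_pos S hν
    have h5R : (0 : ℝ) ≤ n₀ * b * p + n₀ * a * q - a * b * c := by exact_mod_cast h5
    have h6 : (c : ℝ) ≤ n₀ * ((p : ℝ) / a + q / b) := by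
      have h7 : (n₀ : ℝ) * ((p : ℝ) / a + q / b) = (n₀ * b * p + n₀ * a * q) / (a * b) := by
        field_simp
      rw [h7, le_div_iff₀ (by positivity)]
      linarith
    have h7 := (abs_le.1 u₁').2
    have h8 := (abs_le.1 u₂').2
    have h9 : (c : ℝ) ≤ n₀ * (t₁ ν + t₂ ν) + n₀ * (K₁ * q₁ ^ N + K₂ * q₂ ^ N) * c := by
      have h10 : (n₀ : ℝ) * ((p : ℝ) / a + q / b) ≤
          n₀ * (t₁ ν + t₂ ν + (K₁ * q₁ ^ N + K₂ * q₂ ^ N) * c) := by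
        refine mul_le_mul_of_nonneg_left ?_ hn0.le
        linarith
      linarith
    have h10 : (n₀ : ℝ) * (K₁ * q₁ ^ N + K₂ * q₂ ^ N) * c ≤ 1 / 2 * c :=
      mul_le_mul_of_nonneg_right h3.le (by linarith)
    have h11 : (c : ℝ) / 2 ≤ n₀ * (t₁ ν + t₂ ν) := by linarith
    rw [div_mul_eq_mul_div, one_mul, div_le_iff₀ (by positivity)]
    linarith
  -- the finitely many others
  obtain ⟨δ, hδ0, hδ⟩ := fin_min
    (T := {μ | μ ∈ S.prm ∧ F μ ≠ 0} ∩ {ν | ν ∈ S.prm ∧ 0 < t₁ ν + t₂ ν})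
    (Set.Finite.inter_of_left (show {μ | μ ∈ S.prm ∧ F μ ≠ 0}.Finite from hF1) _)
    (fun ν => (t₁ ν + t₂ ν) / S.form S.A (S.cls ν)) (fun ν hν => by
      have hc1 : (1 : ℝ) ≤ S.form S.A (S.cls ν) := by exact_mod_cast LibCUR2.A_pos S hν.2.1
      exact div_pos hν.2.2 (by linarith))
  refine ⟨min (1 / (2 * n₀)) δ, lt_min (by positivity) hδ0, fun ν hν hpos => ?_⟩
  have hc1 : (1 : ℝ) ≤ S.form S.A (S.cls ν) := by exact_mod_cast LibCUR2.A_pos S hν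
  by_cases hFν : F ν = 0
  · exact (mul_le_mul_of_nonneg_right (min_le_left _ _) (by linarith)).trans (key ν hν hFν)
  · have h4 := hδ ν ⟨⟨hν, hFν⟩, hν, hpos⟩
    rw [le_div_iff₀ (by linarith)] at h4
    exact (mul_le_mul_of_nonneg_right (min_le_right _ _) (by linarith)).trans h4

end

end Pool.Agent.LibK3Q
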