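import Pool.Agent.LibK3Q.Q1
import Pool.Agent.LibK3Q.Q3
import Pool.Agent.LibK3Q.Q5

/-!
Ping-pong of two automorphisms of positive entropy on a surface (helper33): a product of high powers
has positive entropy and its periodic curves are periodic for both.
-/

set_option autoImplicit false

open Pool.Agent.LibGMM Pool.Agent.LibK Pool.Agent.LibKB
open Pool.Agent.LibLB (PSurf RLR)
open Pool.Agent.LibCov80 (Over)
open Pool.Agent.LibK3 Pool.Agent.LibK3P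
open Filter

namespace Pool.Agent.LibK3Q

/-- A common period. -/
theorem common_period {ι : Type} (g : Equiv.Perm ι) {T : Set ι} (hT : T.Finite)
    (h : ∀ x ∈ T, ∃ n : ℕ, 0 < n ∧ (g ^ n) x = x) : ∃ N : ℕ, 0 < N ∧ ∀ x ∈ T, (g ^ N) x = x := by
  have hm : ∀ (x : ι) (n j : ℕ), (g ^ n) x = x → (g ^ (n * j)) x = x := by
    intro x n j hx
    induction j with
    | zero => rw [mul_zero, pow_zero]; rfl
    | succ j ih => rw [mul_add, mul_one, pow_add, Equiv.Perm.mul_apply, hx, ih]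
  induction T, hT using Set.Finite.induction_on with
  | empty => exact ⟨1, one_pos, fun x hx => absurd hx (Set.notMem_empty x)⟩
  | insert _ _ ih =>
    rename_i a s ha hs
    obtain ⟨N, hN, h1⟩ := ih fun x hx => h x (Set.mem_insert_of_mem _ hx)
    obtain ⟨n, hn, h2⟩ := h a (Set.mem_insert _ _)
    refine ⟨n * N, Nat.mul_pos hn hN, fun x hx => ?_⟩
    rcases hx with rfl | hx
    · exact hm _ n N h2
    · rw [mul_comm]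
      exact hm _ N n (h1 x hx)

section

variable {L : Type} [Field L] [Algebra ℂ L]

/-- The action on the set of prime divisors. -/
def act {S : PSurf L} {γ : L ≃ₐ[ℂ] L} (h : Perm S γ) : Equiv.Perm {ν // ν ∈ S.prm} where
  toFun ν := ⟨mv γ ν.1, h.prm _ ν.2⟩
  invFun ν := ⟨mv γ⁻¹ ν.1, h.prm' _ ν.2⟩
  left_inv ν := Subtype.ext (by
    show mv γ⁻¹ (mv γ ν.1) = ν.1
    rw [← mv_mul, inv_mul_cancel, mv_one])
  right_inv ν := Subtype.ext (by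
    show mv γ (mv γ⁻¹ ν.1) = ν.1
    rw [← mv_mul, mul_inv_cancel, mv_one])

theorem act_pow {S : PSurf L} {γ : L ≃ₐ[ℂ] L} (h : Perm S γ) (n : ℕ) (ν : {ν // ν ∈ S.prm}) :
    (((act h) ^ n) ν).1 = mv (γ ^ n) ν.1 := by
  induction n with
  | zero => rw [pow_zero, pow_zero, mv_one]; rfl
  | succ n ih =>
    rw [pow_succ', pow_succ', Equiv.Perm.mul_apply, mv_mul, ← ih]
    rfl

theorem Perm_mul {S : PSurf L} {γ γ' : L ≃ₐ[ℂ] L} (h : Perm S γ) (h' : Perm S γ') :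
    Perm S (γ * γ') where
  prm ν hν := by
    rw [mv_mul]
    exact h.prm _ (h'.prm _ hν)
  prm' ν hν := by
    rw [mul_inv_rev, mv_mul]
    exact h'.prm' _ (h.prm' _ hν)
  pts x hx := by
    have h1 := h.pts _ (h'.pts x hx)
    rw [Subalgebra.map_map] at h1
    exact h1
  pts' x hx := by
    have h1 := h'.pts' _ (h.pts' x hx)
    rw [Subalgebra.map_map] at h1
    exact h1

theorem Perm_npow {S : PSurf L} {γ : L ≃ₐ[ℂ] L} (h : Perm S γ) (n : ℕ) : Perm S (γ ^ n) := by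
  have h1 := h.pow (n : ℤ)
  rwa [zpow_natCast] at h1

theorem act_mul_pow {S : PSurf L} {γ γ' : L ≃ₐ[ℂ] L} (h : Perm S γ) (h' : Perm S γ') (n m : ℕ)
    (ν : {ν // ν ∈ S.prm}) :
    (((act h' ^ n * act h ^ n) ^ m) ν).1 = mv ((γ' ^ n * γ ^ n) ^ m) ν.1 := by
  induction m with
  | zero => rw [pow_zero, pow_zero, mv_one]; rfl
  | succ m ih =>
    rw [pow_succ' (act h' ^ n * act h ^ n) m, pow_succ' (γ' ^ n * γ ^ n) m, mv_mul, ← ih,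
      Equiv.Perm.mul_apply, Equiv.Perm.mul_apply, act_pow h', act_pow h, ← mv_mul]

end

end Pool.Agent.LibK3Q

namespace Pool.Agent.LibK3P.Sys0

open Pool.Agent.LibK3Q

variable {L : Type} [Field L] [Algebra ℂ L] (X : Sys0 L)

/-- The lower bound for two systems on the same surface. -/
theorem lower (Y : Sys0 L) (Z : Sys0 L) (hY : Y.PosEnt) (hZ : Z.PosEnt) (hS : Z.S = Y.S)
    {ν₀ : DVal L} (hν₀ : ν₀ ∈ Y.S.prm) (hd : ¬ (Y.Per ν₀ ↔ Z.Per ν₀)) :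
    ∃ δ : ℝ, 0 < δ ∧ ∀ ν ∈ Y.S.prm, ¬ (Y.Per ν ∧ Z.Per ν) →
      δ * Y.S.form Y.S.A (Y.S.cls ν) ≤ Y.tp (Y.S.cls ν) + Z.tp (Z.S.cls ν) := by
  obtain ⟨K₁, q₁, -, hq₁, hq₁', u₁⟩ := Y.tp_unif' hY
  obtain ⟨K₂, q₂, -, hq₂, hq₂', u₂⟩ := Z.tp_unif' hZ
  have key : ∀ ν ∈ Y.S.prm, (Y.tp (Y.S.cls ν) = 0 ↔ Y.Per ν) := by
    intro ν hν
    constructor
    · intro h1
      by_contra h2
      exact (Y.tp_pos hY hν h2).ne' h1
    · exact fun h1 => Y.tp_per hY hν h1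
  have key' : ∀ ν ∈ Z.S.prm, (Z.tp (Z.S.cls ν) = 0 ↔ Z.Per ν) := by
    intro ν hν
    constructor
    · intro h1
      by_contra h2
      exact (Z.tp_pos hZ hν h2).ne' h1
    · exact fun h1 => Z.tp_per hZ hν h1
  have hν₀' : ν₀ ∈ Z.S.prm := by rw [hS]; exact hν₀
  have hne : Y.tp (Y.S.cls ν₀) ≠ Z.tp (Z.S.cls ν₀) := by
    intro h1
    apply hd
    rw [← key ν₀ hν₀, ← key' ν₀ hν₀', h1]
  have main : ∃ δ : ℝ, 0 < δ ∧ ∀ ν ∈ Y.S.prm, 0 < Y.tp (Y.S.cls ν) + Z.tp (Z.S.cls ν) →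
      δ * Y.S.form Y.S.A (Y.S.cls ν) ≤ Y.tp (Y.S.cls ν) + Z.tp (Z.S.cls ν) := by
    obtain ⟨α₂, hα₂⟩ : ∃ α₂ : ℕ → Z.S.Λ, α₂ = fun N : ℕ => Z.α (N : ℤ) := ⟨_, rfl⟩
    have e₂ : ∀ N, Z.S.form (α₂ N) (α₂ N) = Z.S.form Z.S.A Z.S.A := by
      intro N
      rw [hα₂]
      show Z.S.form (Z.α N) (Z.α N) = _
      rw [Z.form_α_α', sub_self, Z.α_zero]
    have l₂ : ∀ N, 1 ≤ Z.S.form (α₂ N) Z.S.A := by
      intro N
      rw [hα₂]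
      exact Z.one_le_form_α_A N
    have u₂' : ∀ ν ∈ Z.S.prm, ∀ N, |(Z.S.form (α₂ N) (Z.S.cls ν) : ℝ) /
        Z.S.form (α₂ N) Z.S.A - Z.tp (Z.S.cls ν)| ≤
        K₂ * q₂ ^ N * Z.S.form Z.S.A (Z.S.cls ν) := by
      intro ν hν N
      rw [hα₂]
      exact u₂ ν hν N
    obtain ⟨t₂, ht₂⟩ : ∃ t₂ : DVal L → ℝ, t₂ = fun ν => Z.tp (Z.S.cls ν) := ⟨_, rfl⟩
    have u₂'' : ∀ ν ∈ Z.S.prm, ∀ N, |(Z.S.form (α₂ N) (Z.S.cls ν) : ℝ) /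
        Z.S.form (α₂ N) Z.S.A - t₂ ν| ≤ K₂ * q₂ ^ N * Z.S.form Z.S.A (Z.S.cls ν) := by
      intro ν hν N
      rw [ht₂]
      exact u₂' ν hν N
    have hgoal : ∃ δ : ℝ, 0 < δ ∧ ∀ ν ∈ Y.S.prm, 0 < Y.tp (Y.S.cls ν) + t₂ ν →
        δ * Y.S.form Y.S.A (Y.S.cls ν) ≤ Y.tp (Y.S.cls ν) + t₂ ν := by
      have hne' : Y.tp (Y.S.cls ν₀) ≠ t₂ ν₀ := by rw [ht₂]; exact hne
      clear u₂' u₂ hne key' hν₀' hα₂ ht₂ hd
      revert α₂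
      rw [hS]
      intro α₂ e₂ l₂ u₂
      exact lower_abs (α₁ := fun N => Y.α N) (α₂ := α₂)
        (t₁ := fun ν => Y.tp (Y.S.cls ν)) (t₂ := t₂) Y.A_sq_pos
        (fun N => by
          show Y.S.form (Y.α N) (Y.α N) = _
          rw [Y.form_α_α', sub_self, Y.α_zero]) e₂ (fun N => Y.one_le_form_α_A N) l₂
        hq₁ hq₁' hq₂ hq₂' u₁ u₂ hν₀ hne'
    rw [ht₂] at hgoal
    exact hgoal
  obtain ⟨δ, hδ, h1⟩ := main
  refine ⟨δ, hδ, fun ν hν hn => h1 ν hν ?_⟩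
  have hν' : ν ∈ Z.S.prm := by rw [hS]; exact hν
  have h2 := Y.tp_nonneg hY hν
  have h3 := Z.tp_nonneg hZ hν'
  by_contra hcon
  push Not at hcon
  apply hn
  constructor
  · rw [← key ν hν]
    linarith
  · rw [← key' ν hν']
    linarith

/-- **Ping-pong.** -/
theorem pingpong {γ' : L ≃ₐ[ℂ] L} (h' : Perm X.S γ') (hE : X.PosEnt) (hE' : (X.wg γ' h').PosEnt)
    {ν₀ : DVal L} (hν₀ : ν₀ ∈ X.S.prm) (hd : ¬ (X.Per ν₀ ↔ (X.wg γ' h').Per ν₀)) {C : RC L}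
    (hC : C.ν ∈ X.S.prm) (hnC : ¬ X.Per C.ν) :
    ∃ n : ℕ, 0 < n ∧ ∃ hY : Perm X.S (γ' ^ n * X.γ ^ n), (X.wg (γ' ^ n * X.γ ^ n) hY).Ent C ∧
      ∀ ν ∈ X.S.prm, (X.wg (γ' ^ n * X.γ ^ n) hY).Per ν → X.Per ν ∧ (X.wg γ' h').Per ν := by
  obtain ⟨C₁, hC₁, k₁⟩ := X.tp_le hE
  obtain ⟨C₂, hC₂, k₂⟩ := X.inv'.tp_le (X.inv_posEnt hE)
  obtain ⟨C₃, hC₃, k₃⟩ := (X.wg γ' h').tp_le hE'
  obtain ⟨C₄, hC₄, k₄⟩ := (X.wg γ' h').inv'.tp_le ((X.wg γ' h').inv_posEnt hE')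
  obtain ⟨δ₁, hδ₁, m₁⟩ := lower X.inv' (X.wg γ' h') (X.inv_posEnt hE) hE' rfl (ν₀ := ν₀) hν₀
    (by rw [X.inv_per]; exact hd)
  obtain ⟨δ₂, hδ₂, m₂⟩ := lower X (X.wg γ' h').inv' hE ((X.wg γ' h').inv_posEnt hE') rfl
    (ν₀ := ν₀) hν₀ (by rw [(X.wg γ' h').inv_per]; exact hd)
  obtain ⟨a, ha⟩ : ∃ a : {ν // ν ∈ X.S.prm} → ℝ, a = fun x => (X.S.form X.S.A (X.S.cls x.1) : ℝ) :=
    ⟨_, rfl⟩
  obtain ⟨tp, htp⟩ : ∃ t : {ν // ν ∈ X.S.prm} → ℝ, t = fun x => X.tp (X.S.cls x.1) := ⟨_, rfl⟩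
  obtain ⟨tm, htm⟩ : ∃ t : {ν // ν ∈ X.S.prm} → ℝ, t = fun x => X.tm (X.S.cls x.1) := ⟨_, rfl⟩
  obtain ⟨tp', htp'⟩ : ∃ t : {ν // ν ∈ X.S.prm} → ℝ,
    t = fun x => (X.wg γ' h').tp (X.S.cls x.1) := ⟨_, rfl⟩
  obtain ⟨tm', htm'⟩ : ∃ t : {ν // ν ∈ X.S.prm} → ℝ,
    t = fun x => (X.wg γ' h').tm (X.S.cls x.1) := ⟨_, rfl⟩
  have a1 : ∀ x, 1 ≤ a x := by
    intro x
    rw [ha]
    have h1 : (1 : ℝ) ≤ X.S.form X.S.A (X.S.cls x.1) := by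
      exact_mod_cast LibCUR2.A_pos X.S x.2
    exact h1
  have a0 : ∀ x, 0 ≤ a x := fun x => by linarith [a1 x]
  have b1 : ∀ x, tp x ≤ C₁ * a x := by
    intro x
    rw [htp, ha]
    exact k₁ x.1 x.2
  have b2 : ∀ x, tm x ≤ C₂ * a x := by
    intro x
    rw [htm, ha]
    exact k₂ x.1 x.2
  have b3 : ∀ x, tp' x ≤ C₃ * a x := by
    intro x
    rw [htp', ha]
    exact k₃ x.1 x.2
  have b4 : ∀ x, tm' x ≤ C₄ * a x := by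
    intro x
    rw [htm', ha]
    exact k₄ x.1 x.2
  obtain ⟨K, hK, hK1, hK2, hK3, hK4⟩ : ∃ K : ℝ, 0 < K ∧ C₁ ≤ K ∧ C₂ ≤ K ∧ C₃ ≤ K ∧ C₄ ≤ K :=
    ⟨C₁ + C₂ + C₃ + C₄, by positivity, by linarith, by linarith, by linarith, by linarith⟩
  obtain ⟨δ, hδ, hδ1, hδ2⟩ : ∃ δ : ℝ, 0 < δ ∧ δ ≤ δ₁ ∧ δ ≤ δ₂ :=
    ⟨min δ₁ δ₂, lt_min hδ₁ hδ₂, min_le_left _ _, min_le_right _ _⟩
  obtain ⟨P, hP⟩ : ∃ P : Set {ν // ν ∈ X.S.prm}, P = {x | X.Per x.1} := ⟨_, rfl⟩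
  obtain ⟨P', hP'⟩ : ∃ P' : Set {ν // ν ∈ X.S.prm}, P' = {x | (X.wg γ' h').Per x.1} := ⟨_, rfl⟩
  have l1 : ∀ x, ¬ (x ∈ P ∧ x ∈ P') → δ * a x ≤ tm x + tp' x := by
    intro x hx
    refine (mul_le_mul_of_nonneg_right hδ1 (a0 x)).trans ?_
    rw [ha, htm, htp']
    refine m₁ x.1 x.2 fun h1 => hx ?_
    rw [hP, hP']
    exact ⟨X.inv_per.1 h1.1, h1.2⟩
  have l2 : ∀ x, ¬ (x ∈ P ∧ x ∈ P') → δ * a x ≤ tp x + tm' x := by
    intro x hx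
    refine (mul_le_mul_of_nonneg_right hδ2 (a0 x)).trans ?_
    rw [ha, htp, htm']
    refine m₂ x.1 x.2 fun h1 => hx ?_
    rw [hP, hP']
    exact ⟨h1.1, (X.wg γ' h').inv_per.1 h1.2⟩
  -- common period
  have fin1 : P.Finite := by
    rw [hP]
    have h1 := X.finite_per hE
    exact Set.Finite.of_injOn (f := Subtype.val) (t := {ν | ν ∈ X.S.prm ∧ X.Per ν})
      (fun x hx => ⟨x.2, hx⟩) Subtype.val_injective.injOn h1
  have fin2 : P'.Finite := by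
    rw [hP']
    have h1 := (X.wg γ' h').finite_per hE'
    exact Set.Finite.of_injOn (f := Subtype.val)
      (t := {ν | ν ∈ (X.wg γ' h').S.prm ∧ (X.wg γ' h').Per ν})
      (fun x hx => ⟨x.2, hx⟩) Subtype.val_injective.injOn h1
  obtain ⟨N₁, hN₁, p₁⟩ := common_period (act X.perm) fin1 (by
    rw [hP]
    rintro x ⟨n, hn, h1⟩
    exact ⟨n, hn, Subtype.ext ((act_pow X.perm n x).trans h1)⟩)
  obtain ⟨N₂, hN₂, p₂⟩ := common_period (act h') fin2 (by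
    rw [hP']
    rintro x ⟨n, hn, h1⟩
    exact ⟨n, hn, Subtype.ext ((act_pow h' n x).trans h1)⟩)
  have hpow : ∀ (g : Equiv.Perm {ν // ν ∈ X.S.prm}) (x : {ν // ν ∈ X.S.prm}) (n j : ℕ),
      (g ^ n) x = x → (g ^ (n * j)) x = x := by
    intro g x n j hx
    induction j with
    | zero => rw [mul_zero, pow_zero]; rfl
    | succ j ih => rw [mul_add, mul_one, pow_add, Equiv.Perm.mul_apply, hx, ih]
  obtain ⟨n, hn, q1, q2⟩ := pingpong_abs (act X.perm) (act h') P P' a tp tm tp' tm'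
    (r := X.rt) (r' := (X.wg γ' h').rt) (C := K) (δ := δ) (X.rt_pos hE) (X.rt_lt hE)
    ((X.wg γ' h').rt_pos hE') ((X.wg γ' h').rt_lt hE') hK hδ a1
    (fun x => (b1 x).trans (mul_le_mul_of_nonneg_right hK1 (a0 x)))
    (fun x => (b2 x).trans (mul_le_mul_of_nonneg_right hK2 (a0 x)))
    (fun x => (b3 x).trans (mul_le_mul_of_nonneg_right hK3 (a0 x)))
    (fun x => (b4 x).trans (mul_le_mul_of_nonneg_right hK4 (a0 x)))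
    (fun x => by rw [htp]; exact X.tp_mv hE x.2) (fun x => by rw [htm]; exact X.tm_mv hE x.2)
    (fun x => by rw [htp']; exact (X.wg γ' h').tp_mv hE' x.2)
    (fun x => by rw [htm']; exact (X.wg γ' h').tm_mv hE' x.2) l1 l2
    (N := N₁ * N₂) (Nat.mul_pos hN₁ hN₂) (fun x hx => hpow _ x N₁ N₂ (p₁ x hx))
    (fun x hx => by rw [mul_comm]; exact hpow _ x N₂ N₁ (p₂ x hx)) (c := ⟨C.ν, hC⟩)
    (by rw [htm]; exact X.inv'.tp_pos (X.inv_posEnt hE) hC (by rw [X.inv_per]; exact hnC))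
  have hY : Perm X.S (γ' ^ n * X.γ ^ n) := Perm_mul (Perm_npow h' n) (Perm_npow X.perm n)
  refine ⟨n, hn, hY, ⟨hC, 2, a ⟨C.ν, hC⟩, one_lt_two, by linarith [a1 ⟨C.ν, hC⟩], fun m => ?_⟩, ?_⟩
  · have h1 := q2 m
    rw [mul_comm, ha] at h1
    refine (le_of_eq (by rw [ha])).trans (h1.trans (le_of_eq ?_))
    show ((X.S.form X.S.A (X.S.cls (((act h' ^ n * act X.perm ^ n) ^ m) ⟨C.ν, hC⟩).1) : ℤ) : ℝ) =
      ((X.S.form X.S.A (X.S.cls (mv ((γ' ^ n * X.γ ^ n) ^ (m : ℤ)) C.ν)) : ℤ) : ℝ)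
    rw [act_mul_pow X.perm h' n m, zpow_natCast]
  · rintro ν hν ⟨k, hk, h1⟩
    have h2 := q1 ⟨ν, hν⟩ ⟨k, hk, Subtype.ext ((act_mul_pow X.perm h' n k _).trans h1)⟩
    rw [hP, hP'] at h2
    exact h2

end Pool.Agent.LibK3P.Sys0
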